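import Mathlib

/-!
# Large deviations for words over a finite alphabet, by finite sums
-/

namespace Q137.FD

open Finset

lemma exp_quad {v : ℝ} (hv : |v| ≤ 1) : Real.exp v ≤ 1 + v + v ^ 2 := by
  have := Real.abs_exp_sub_one_sub_id_le hv
  have := (abs_le.1 this).2
  linarith

/-- a function of negative mean has exponentially small upper tail -/
lemma chern {κ : Type*} [DecidableEq κ] (W : Finset κ) (t u : κ → ℝ) (ht : ∀ z ∈ W, 0 ≤ t z)
    (ht1 : ∑ z ∈ W, t z = 1) (hu : ∑ z ∈ W, t z * u z < 0) :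
    ∃ ρ : ℝ, 0 ≤ ρ ∧ ρ < 1 ∧ ∀ n : ℕ, ∑ x ∈ Fintype.piFinset (fun _ : Fin n => W),
      (if 0 ≤ ∑ m, u (x m) then ∏ m, t (x m) else 0) ≤ ρ ^ n := by
  set m := - ∑ z ∈ W, t z * u z with hm
  have hm0 : 0 < m := by linarith
  set C := ∑ z ∈ W, t z * u z ^ 2 with hC
  have hC0 : 0 ≤ C := Finset.sum_nonneg fun z hz => mul_nonneg (ht z hz) (sq_nonneg _)
  set B := ∑ z ∈ W, |u z| with hB
  have hB0 : 0 ≤ B := Finset.sum_nonneg fun z _ => abs_nonneg _
  obtain ⟨s, hs0, hs1, hs2⟩ : ∃ s : ℝ, 0 < s ∧ s * B ≤ 1 ∧ s * C < m := by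
    refine ⟨min (1 / (B + 1)) (m / (2 * (C + 1))), ?_, ?_, ?_⟩
    · apply lt_min <;> positivity
    · calc min (1 / (B + 1)) (m / (2 * (C + 1))) * B ≤ 1 / (B + 1) * B := by
            gcongr; exact min_le_left _ _
        _ ≤ 1 := by rw [div_mul_eq_mul_div, one_mul, div_le_one (by positivity)]; linarith
    · calc min (1 / (B + 1)) (m / (2 * (C + 1))) * C ≤ m / (2 * (C + 1)) * C := by
            gcongr; exact min_le_right _ _
        _ < m := by
            rw [div_mul_eq_mul_div, div_lt_iff₀ (by positivity)]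
            nlinarith
  refine ⟨∑ z ∈ W, t z * Real.exp (s * u z), ?_, ?_, ?_⟩
  · exact Finset.sum_nonneg fun z hz => mul_nonneg (ht z hz) (Real.exp_pos _).le
  · have h1 : ∑ z ∈ W, t z * Real.exp (s * u z) ≤
        ∑ z ∈ W, (t z + s * (t z * u z) + s ^ 2 * (t z * u z ^ 2)) := by
      refine Finset.sum_le_sum fun z hz => ?_
      have hz1 : |s * u z| ≤ 1 := by
        rw [abs_mul, abs_of_pos hs0]
        calc s * |u z| ≤ s * B := by
              gcongr
              exact Finset.single_le_sum (f := fun z => |u z|) (fun z _ => abs_nonneg _) hz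
          _ ≤ 1 := hs1
      have := mul_le_mul_of_nonneg_left (exp_quad hz1) (ht z hz)
      nlinarith
    rw [Finset.sum_add_distrib, Finset.sum_add_distrib, ← Finset.mul_sum, ← Finset.mul_sum, ht1]
      at h1
    have : s ^ 2 * C < s * m := by nlinarith
    have e1 : ∑ z ∈ W, t z * u z = -m := by rw [hm]; ring
    rw [e1] at h1
    linarith
  · intro n
    have h2 : (∑ z ∈ W, t z * Real.exp (s * u z)) ^ n =
        ∑ x ∈ Fintype.piFinset (fun _ : Fin n => W), ∏ m, (t (x m) * Real.exp (s * u (x m))) := by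
      have := Finset.prod_univ_sum (fun _ : Fin n => W) (fun _ z => t z * Real.exp (s * u z))
      rw [← this]
      simp
    rw [h2]
    refine Finset.sum_le_sum fun x hx => ?_
    rw [Fintype.mem_piFinset] at hx
    have h3 : 0 ≤ ∏ m, t (x m) := Finset.prod_nonneg fun m _ => ht _ (hx m)
    rw [Finset.prod_mul_distrib, ← Real.exp_sum, ← Finset.mul_sum]
    split_ifs with h
    · have : (1:ℝ) ≤ Real.exp (s * ∑ m, u (x m)) := Real.one_le_exp (by positivity)
      nlinarith
    · positivity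

variable (W : Finset ℤ) (γ : ℤ → ℝ)

/-- `∑ γ ^ p` over the support -/
noncomputable def G (p : ℝ) : ℝ := ∑ z ∈ W, Real.exp (p * Real.log (γ z))

/-- its derivative -/
noncomputable def D (p : ℝ) : ℝ := ∑ z ∈ W, Real.exp (p * Real.log (γ z)) * Real.log (γ z)

lemma G_cont : Continuous (G W γ) := by
  unfold G; fun_prop

lemma D_cont : Continuous (D W γ) := by
  unfold D; fun_prop

variable {W} {γ}

lemma G_pos (hW : W.Nonempty) (p : ℝ) : 0 < G W γ p :=
  Finset.sum_pos (fun z _ => Real.exp_pos _) hW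

/-- choice of the tilt in case `D 1 > 0` -/
lemma exists_tilt (hW : W.Nonempty) (h1 : 0 < D W γ 1) {δ : ℝ} (hδ : 0 < δ) :
    ∃ p : ℝ, 0 ≤ p ∧ p ≤ 1 ∧ 0 < D W γ p ∧ p * (D W γ p / G W γ p) < δ := by
  by_cases h0 : 0 < D W γ 0
  · exact ⟨0, le_rfl, zero_le_one, h0, by simpa using hδ⟩
  push Not at h0
  set K : Set ℝ := {p | p ∈ Set.Icc (0:ℝ) 1 ∧ D W γ p ≤ 0} with hK
  have hKc : IsCompact K := by
    apply (isCompact_Icc (a := (0:ℝ)) (b := 1)).inter_right
    exact isClosed_le (D_cont W γ) continuous_const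
  have hKne : K.Nonempty := ⟨0, ⟨le_rfl, zero_le_one⟩, h0⟩
  obtain ⟨q, hqK, hq⟩ := hKc.exists_isGreatest hKne
  have hq1 : q < 1 := by
    rcases lt_or_eq_of_le hqK.1.2 with h | h
    · exact h
    · exfalso
      have := hqK.2
      rw [h] at this
      linarith
  have hcont : Continuous fun p => p * (D W γ p / G W γ p) :=
    continuous_id.mul ((D_cont W γ).div (G_cont W γ) fun p => (G_pos hW p).ne')
  have hqv : q * (D W γ q / G W γ q) < δ := by
    have : D W γ q / G W γ q ≤ 0 := div_nonpos_of_nonpos_of_nonneg hqK.2 (G_pos hW q).le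
    nlinarith [hqK.1.1, mul_nonpos_of_nonneg_of_nonpos hqK.1.1 this]
  have hev := (hcont.tendsto q).eventually (gt_mem_nhds hqv)
  obtain ⟨ε, hε, hball⟩ := Metric.eventually_nhds_iff.1 hev
  set p := q + min (ε / 2) ((1 - q) / 2) with hp
  have hm0 : 0 < min (ε / 2) ((1 - q) / 2) := lt_min (by linarith) (by linarith)
  have hm1 : min (ε / 2) ((1 - q) / 2) ≤ ε / 2 := min_le_left _ _
  have hm2 : min (ε / 2) ((1 - q) / 2) ≤ (1 - q) / 2 := min_le_right _ _
  refine ⟨p, ?_, ?_, ?_, ?_⟩
  · have := hqK.1.1; linarith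
  · linarith
  · by_contra hcon
    push Not at hcon
    have : p ∈ K := ⟨⟨by have := hqK.1.1; linarith, by linarith⟩, hcon⟩
    have := hq this
    linarith
  · apply hball
    rw [Real.dist_eq, hp, add_sub_cancel_left, abs_of_pos hm0]
    linarith

/-- words: many words `x` with `∏ γ (x m)` exponentially large -/
lemma many_words (hW : W.Nonempty) (hγ : ∀ z ∈ W, 0 < γ z) {p : ℝ} (hp0 : 0 ≤ p)
    (hD : 0 < D W γ p) {δ : ℝ} (hpδ : p * (D W γ p / G W γ p) < δ) :
    ∃ θ : ℝ, 0 < θ ∧ ∃ n₀ : ℕ, ∀ n : ℕ, n₀ ≤ n → ∃ Q : Finset (Fin n → ℤ),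
      Q ⊆ Fintype.piFinset (fun _ : Fin n => W) ∧
      (∀ x ∈ Q, Real.exp (θ * n) ≤ ∏ m, γ (x m)) ∧
      G W γ p ^ n * Real.exp (-(δ * n)) ≤ 2 * (Q.card : ℝ) := by
  have hG := G_pos (γ := γ) hW p
  set E := D W γ p / G W γ p with hE
  have hE0 : 0 < E := div_pos hD hG
  obtain ⟨η, hη0, hηE, hηδ⟩ : ∃ η : ℝ, 0 < η ∧ η < E ∧ p * (E + η) ≤ δ := by
    refine ⟨min (E / 2) ((δ - p * E) / (p + 1)), ?_, ?_, ?_⟩
    · apply lt_min (by linarith)
      apply div_pos (by linarith) (by linarith)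
    · exact lt_of_le_of_lt (min_le_left _ _) (by linarith)
    · have h1 : min (E / 2) ((δ - p * E) / (p + 1)) ≤ (δ - p * E) / (p + 1) := min_le_right _ _
      have h2 : p * ((δ - p * E) / (p + 1)) ≤ δ - p * E := by
        rw [mul_div_assoc', div_le_iff₀ (by linarith)]
        nlinarith
      nlinarith [mul_le_mul_of_nonneg_left h1 hp0]
  set t : ℤ → ℝ := fun z => Real.exp (p * Real.log (γ z)) / G W γ p with ht
  have ht0 : ∀ z ∈ W, 0 ≤ t z := fun z _ => div_nonneg (Real.exp_pos _).le hG.le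
  have ht1 : ∑ z ∈ W, t z = 1 := by
    rw [ht, ← Finset.sum_div]
    exact div_self hG.ne'
  have hmean : ∑ z ∈ W, t z * Real.log (γ z) = E := by
    rw [hE, D, Finset.sum_div]
    exact Finset.sum_congr rfl fun z _ => by rw [ht]; ring
  obtain ⟨ρ₁, h10, h11, h1⟩ := chern W t (fun z => Real.log (γ z) - E - η) ht0 ht1 (by
    have : ∑ z ∈ W, t z * (Real.log (γ z) - E - η) =
        ∑ z ∈ W, t z * Real.log (γ z) - (E + η) * ∑ z ∈ W, t z := by
      rw [Finset.mul_sum, ← Finset.sum_sub_distrib]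
      exact Finset.sum_congr rfl fun z _ => by ring
    rw [this, hmean, ht1]; linarith)
  obtain ⟨ρ₂, h20, h21, h2⟩ := chern W t (fun z => E - η - Real.log (γ z)) ht0 ht1 (by
    have : ∑ z ∈ W, t z * (E - η - Real.log (γ z)) =
        (E - η) * ∑ z ∈ W, t z - ∑ z ∈ W, t z * Real.log (γ z) := by
      rw [Finset.mul_sum, ← Finset.sum_sub_distrib]
      exact Finset.sum_congr rfl fun z _ => by ring
    rw [this, hmean, ht1]; linarith)
  have hlim1 := tendsto_pow_atTop_nhds_zero_of_lt_one h10 h11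
  have hlim2 := tendsto_pow_atTop_nhds_zero_of_lt_one h20 h21
  have hev := (hlim1.add hlim2).eventually (gt_mem_nhds (show (0:ℝ) + 0 < 1 / 2 by norm_num))
  obtain ⟨n₀, hn₀⟩ := Filter.eventually_atTop.1 hev
  refine ⟨E - η, by linarith, n₀, fun n hn => ?_⟩
  have hr := hn₀ n hn
  set P := Fintype.piFinset (fun _ : Fin n => W) with hP
  set Q := P.filter (fun x => (E - η) * n ≤ ∑ m, Real.log (γ (x m)) ∧
    ∑ m, Real.log (γ (x m)) ≤ (E + η) * n) with hQ
  refine ⟨Q, Finset.filter_subset _ _, ?_, ?_⟩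
  · intro x hx
    rw [hQ, Finset.mem_filter, hP, Fintype.mem_piFinset] at hx
    have : ∏ m, γ (x m) = Real.exp (∑ m, Real.log (γ (x m))) := by
      rw [Real.exp_sum]
      exact Finset.prod_congr rfl fun m _ => (Real.exp_log (hγ _ (hx.1 m))).symm
    rw [this]
    exact Real.exp_le_exp.2 hx.2.1
  · have hone : ∑ x ∈ P, ∏ m, t (x m) = 1 := by
      have := Finset.prod_univ_sum (fun _ : Fin n => W) (fun _ z => t z)
      rw [hP, ← this]
      simp [ht1]
    have hsplit : ∑ x ∈ P, ∏ m, t (x m) ≤ ∑ x ∈ Q, ∏ m, t (x m) +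
        (∑ x ∈ P, (if 0 ≤ ∑ m, (Real.log (γ (x m)) - E - η) then ∏ m, t (x m) else 0) +
        ∑ x ∈ P, (if 0 ≤ ∑ m, (E - η - Real.log (γ (x m))) then ∏ m, t (x m) else 0)) := by
      rw [hQ, Finset.sum_filter, ← Finset.sum_add_distrib, ← Finset.sum_add_distrib]
      refine Finset.sum_le_sum fun x hx => ?_
      rw [hP, Fintype.mem_piFinset] at hx
      have h0 : 0 ≤ ∏ m, t (x m) := Finset.prod_nonneg fun m _ => ht0 _ (hx m)
      by_cases c1 : (E - η) * n ≤ ∑ m, Real.log (γ (x m)) ∧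
          ∑ m, Real.log (γ (x m)) ≤ (E + η) * n
      · rw [if_pos c1]
        have : 0 ≤ (if 0 ≤ ∑ m, (Real.log (γ (x m)) - E - η) then ∏ m, t (x m) else 0) := by
          split_ifs <;> simp [h0]
        have : 0 ≤ (if 0 ≤ ∑ m, (E - η - Real.log (γ (x m))) then ∏ m, t (x m) else 0) := by
          split_ifs <;> simp [h0]
        linarith
      · rw [if_neg c1]
        rw [not_and_or, not_le, not_le] at c1
        rcases c1 with c | c
        · have e : 0 ≤ ∑ m, (E - η - Real.log (γ (x m))) := by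
            rw [Finset.sum_sub_distrib, Finset.sum_const, Finset.card_univ, Fintype.card_fin,
              nsmul_eq_mul]
            linarith
          rw [if_pos e]
          have : 0 ≤ (if 0 ≤ ∑ m, (Real.log (γ (x m)) - E - η) then ∏ m, t (x m) else 0) := by
            split_ifs <;> simp [h0]
          linarith
        · have e : 0 ≤ ∑ m, (Real.log (γ (x m)) - E - η) := by
            have e1 : ∑ m, (Real.log (γ (x m)) - E - η) =
                ∑ m, (Real.log (γ (x m)) - (E + η)) :=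
              Finset.sum_congr rfl fun m _ => by ring
            rw [e1, Finset.sum_sub_distrib, Finset.sum_const, Finset.card_univ, Fintype.card_fin,
              nsmul_eq_mul]
            linarith
          rw [if_pos e]
          have : 0 ≤ (if 0 ≤ ∑ m, (E - η - Real.log (γ (x m))) then ∏ m, t (x m) else 0) := by
            split_ifs <;> simp [h0]
          linarith
    have hhalf : (1:ℝ) / 2 ≤ ∑ x ∈ Q, ∏ m, t (x m) := by
      have a1 := h1 n
      have a2 := h2 n
      rw [hone] at hsplit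
      linarith
    have hterm : ∀ x ∈ Q, ∏ m, t (x m) ≤ Real.exp (δ * n) / G W γ p ^ n := by
      intro x hx
      rw [hQ, Finset.mem_filter] at hx
      have : ∏ m, t (x m) = Real.exp (p * ∑ m, Real.log (γ (x m))) / G W γ p ^ n := by
        rw [ht, Finset.prod_div_distrib, ← Real.exp_sum, ← Finset.mul_sum]
        simp
      rw [this]
      refine div_le_div_of_nonneg_right (Real.exp_le_exp.2 ?_) (by positivity)
      calc p * ∑ m, Real.log (γ (x m)) ≤ p * ((E + η) * n) :=
            mul_le_mul_of_nonneg_left hx.2.2 hp0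
        _ = (p * (E + η)) * n := by ring
        _ ≤ δ * n := by gcongr
    have hsum : ∑ x ∈ Q, ∏ m, t (x m) ≤ Q.card * (Real.exp (δ * n) / G W γ p ^ n) := by
      rw [← nsmul_eq_mul]
      exact Finset.sum_le_card_nsmul _ _ _ hterm
    have h3 : (1:ℝ) / 2 ≤ Q.card * (Real.exp (δ * n) / G W γ p ^ n) := hhalf.trans hsum
    rw [mul_div_assoc', le_div_iff₀ (by positivity)] at h3
    rw [Real.exp_neg, ← div_eq_mul_inv, div_le_iff₀ (Real.exp_pos _)]
    linarith

/-- words in case `D 1 ≤ 0`: the words with large product carry little mass -/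
lemma few_mass (hW : W.Nonempty) (hγ : ∀ z ∈ W, 0 < γ z) (hD : D W γ 1 ≤ 0) {η : ℝ}
    (hη : 0 < η) : ∃ ρ : ℝ, 0 ≤ ρ ∧ ρ < 1 ∧ ∀ n : ℕ,
      ∑ x ∈ (Fintype.piFinset (fun _ : Fin n => W)).filter
        (fun x => ¬ ∏ m, γ (x m) ≤ Real.exp (η * n)), ∏ m, γ (x m) ≤
        (∑ z ∈ W, γ z) ^ n * ρ ^ n := by
  set s := ∑ z ∈ W, γ z with hs
  have hs0 : 0 < s := Finset.sum_pos hγ hW
  have hGe : ∀ z ∈ W, Real.exp (1 * Real.log (γ z)) = γ z := fun z hz => by
    rw [one_mul, Real.exp_log (hγ z hz)]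
  have hD' : ∑ z ∈ W, γ z * Real.log (γ z) ≤ 0 := by
    refine le_trans (le_of_eq ?_) hD
    exact Finset.sum_congr rfl fun z hz => by rw [hGe z hz]
  obtain ⟨ρ, hρ0, hρ1, hρ⟩ := chern W (fun z => γ z / s) (fun z => Real.log (γ z) - η)
    (fun z hz => div_nonneg (hγ z hz).le hs0.le)
    (by rw [← Finset.sum_div]; exact div_self hs0.ne')
    (by
      have : ∑ z ∈ W, γ z / s * (Real.log (γ z) - η) =
          (∑ z ∈ W, γ z * Real.log (γ z)) / s - η := by
        rw [Finset.sum_div]
        have e1 : η = ∑ z ∈ W, γ z / s * η := by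
          rw [← Finset.sum_mul, ← Finset.sum_div, ← hs, div_self hs0.ne', one_mul]
        conv_rhs => rw [e1]
        rw [← Finset.sum_sub_distrib]
        exact Finset.sum_congr rfl fun z _ => by ring
      rw [this]
      have := div_nonpos_of_nonpos_of_nonneg hD' hs0.le
      linarith)
  refine ⟨ρ, hρ0, hρ1, fun n => ?_⟩
  have h := hρ n
  rw [Finset.sum_filter]
  calc _ ≤ s ^ n * ∑ x ∈ Fintype.piFinset (fun _ : Fin n => W),
      (if 0 ≤ ∑ m, (Real.log (γ (x m)) - η) then ∏ m, γ (x m) / s else 0) := by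
        rw [Finset.mul_sum]
        refine Finset.sum_le_sum fun x hx => ?_
        rw [Fintype.mem_piFinset] at hx
        have hpos : 0 < ∏ m, γ (x m) := Finset.prod_pos fun m _ => hγ _ (hx m)
        have hexp : ∏ m, γ (x m) = Real.exp (∑ m, Real.log (γ (x m))) := by
          rw [Real.exp_sum]
          exact Finset.prod_congr rfl fun m _ => (Real.exp_log (hγ _ (hx m))).symm
        by_cases c1 : ∏ m, γ (x m) ≤ Real.exp (η * n)
        · rw [if_neg (not_not.2 c1)]
          split_ifs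
          · rw [Finset.prod_div_distrib]
            simp only [Finset.prod_const, Finset.card_univ, Fintype.card_fin]
            positivity
          · simp
        · rw [if_pos c1]
          have c2 : 0 ≤ ∑ m, (Real.log (γ (x m)) - η) := by
            rw [hexp, Real.exp_le_exp, not_le] at c1
            rw [Finset.sum_sub_distrib, Finset.sum_const, Finset.card_univ, Fintype.card_fin,
              nsmul_eq_mul]
            linarith
          rw [if_pos c2, Finset.prod_div_distrib]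
          simp only [Finset.prod_const, Finset.card_univ, Fintype.card_fin]
          rw [mul_div_cancel₀ _ (by positivity)]
    _ ≤ s ^ n * ρ ^ n := by gcongr

end Q137.FD
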