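import Mathlib

/-!
# Random subsets of a finite set, by finite sums
-/

namespace Q137.FD

open Finset

variable {ι : Type*} [DecidableEq ι]

/-- weight of `T ⊆ V` for the random subset of `V` containing `x` with probability `p x` -/
noncomputable def wt (V : Finset ι) (p : ι → ℝ) (T : Finset ι) : ℝ :=
  (∏ x ∈ T, p x) * ∏ x ∈ V \ T, (1 - p x)

/-- expectation over the random subset -/
noncomputable def Ex (V : Finset ι) (p : ι → ℝ) (f : Finset ι → ℝ) : ℝ :=
  ∑ T ∈ V.powerset, wt V p T * f T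

/-- expectation over two independent random subsets -/
noncomputable def E2 (V : Finset ι) (p : ι → ℝ) (f : Finset ι → Finset ι → ℝ) : ℝ :=
  Ex V p (fun T => Ex V p (fun T' => f T T'))

/-- indicator -/
noncomputable def I (T : Finset ι) (x : ι) : ℝ := if x ∈ T then 1 else 0

lemma I_nonneg (T : Finset ι) (x : ι) : 0 ≤ I T x := by unfold I; split_ifs <;> norm_num

lemma I_mul_self (T : Finset ι) (x : ι) : I T x * I T x = I T x := by
  unfold I; split_ifs <;> norm_num

lemma I_le_one (T : Finset ι) (x : ι) : I T x ≤ 1 := by unfold I; split_ifs <;> norm_num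

section basic

variable {V : Finset ι} {p : ι → ℝ}

lemma wt_nonneg (hp : ∀ x, 0 ≤ p x ∧ p x ≤ 1) (T : Finset ι) : 0 ≤ wt V p T :=
  mul_nonneg (prod_nonneg fun x _ => (hp x).1) (prod_nonneg fun x _ => by linarith [(hp x).2])

lemma Ex_sub {U : Finset ι} (hU : U ⊆ V) :
    Ex V p (fun T => if U ⊆ T then 1 else 0) = ∏ x ∈ U, p x := by
  have h := Finset.prod_add p (fun x => if x ∈ U then 0 else 1 - p x) V
  have h1 : ∏ x ∈ V, (p x + (if x ∈ U then 0 else 1 - p x)) = ∏ x ∈ U, p x := by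
    rw [← Finset.prod_subset hU (f := fun x => p x + (if x ∈ U then 0 else 1 - p x))]
    · exact Finset.prod_congr rfl fun x hx => by simp [hx]
    · intro x _ hx
      simp [hx]
  rw [← h1, h]
  unfold Ex wt
  refine Finset.sum_congr rfl fun T hT => ?_
  beta_reduce
  by_cases hUT : U ⊆ T
  · rw [if_pos hUT, mul_one]
    congr 1
    refine Finset.prod_congr rfl fun x hx => ?_
    rw [Finset.mem_sdiff] at hx
    rw [if_neg (fun h => hx.2 (hUT h))]
  · rw [if_neg hUT, mul_zero]
    obtain ⟨x, hx, hxT⟩ := Finset.not_subset.1 hUT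
    symm
    apply mul_eq_zero_of_right
    exact Finset.prod_eq_zero (Finset.mem_sdiff.2 ⟨hU hx, hxT⟩) (by simp [hx])

lemma Ex_one : Ex V p (fun _ => 1) = 1 := by
  have := Ex_sub (V := V) (p := p) (Finset.empty_subset V)
  simpa using this

lemma Ex_add (f g : Finset ι → ℝ) : Ex V p (fun T => f T + g T) = Ex V p f + Ex V p g := by
  unfold Ex
  rw [← Finset.sum_add_distrib]
  exact Finset.sum_congr rfl fun T _ => by ring

lemma Ex_const_mul (c : ℝ) (f : Finset ι → ℝ) : Ex V p (fun T => c * f T) = c * Ex V p f := by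
  unfold Ex
  rw [Finset.mul_sum]
  exact Finset.sum_congr rfl fun T _ => by ring

lemma Ex_mul_const (c : ℝ) (f : Finset ι → ℝ) : Ex V p (fun T => f T * c) = Ex V p f * c := by
  unfold Ex
  rw [Finset.sum_mul]
  exact Finset.sum_congr rfl fun T _ => by ring

lemma Ex_sum {κ : Type*} (s : Finset κ) (f : κ → Finset ι → ℝ) :
    Ex V p (fun T => ∑ k ∈ s, f k T) = ∑ k ∈ s, Ex V p (f k) := by
  unfold Ex
  rw [Finset.sum_comm]
  exact Finset.sum_congr rfl fun T _ => by rw [Finset.mul_sum]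

lemma Ex_mono (hp : ∀ x, 0 ≤ p x ∧ p x ≤ 1) {f g : Finset ι → ℝ}
    (h : ∀ T, T ⊆ V → f T ≤ g T) : Ex V p f ≤ Ex V p g := by
  unfold Ex
  exact Finset.sum_le_sum fun T hT =>
    mul_le_mul_of_nonneg_left (h T (Finset.mem_powerset.1 hT)) (wt_nonneg hp T)

lemma Ex_congr {f g : Finset ι → ℝ} (h : ∀ T, T ⊆ V → f T = g T) : Ex V p f = Ex V p g := by
  unfold Ex
  exact Finset.sum_congr rfl fun T hT => by rw [h T (Finset.mem_powerset.1 hT)]

lemma Ex_nonneg (hp : ∀ x, 0 ≤ p x ∧ p x ≤ 1) {f : Finset ι → ℝ}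
    (h : ∀ T, T ⊆ V → 0 ≤ f T) : 0 ≤ Ex V p f := by
  unfold Ex
  exact Finset.sum_nonneg fun T hT =>
    mul_nonneg (wt_nonneg hp T) (h T (Finset.mem_powerset.1 hT))

lemma Ex_const (c : ℝ) : Ex V p (fun _ => c) = c := by
  have := Ex_const_mul (V := V) (p := p) c (fun _ => 1)
  simpa [Ex_one] using this

lemma Ex_I (hV : ∀ x, x ∉ V → p x = 0) (x : ι) : Ex V p (fun T => I T x) = p x := by
  by_cases hx : x ∈ V
  · have := Ex_sub (V := V) (p := p) (U := {x}) (by simpa using hx)
    simpa [I] using this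
  · rw [hV x hx, ← Ex_const (V := V) (p := p) 0]
    refine Ex_congr fun T hT => ?_
    unfold I
    rw [if_neg (fun h => hx (hT h))]

lemma Ex_II (hV : ∀ x, x ∉ V → p x = 0) {x y : ι} (hxy : x ≠ y) :
    Ex V p (fun T => I T x * I T y) = p x * p y := by
  by_cases hx : x ∈ V
  · by_cases hy : y ∈ V
    · have := Ex_sub (V := V) (p := p) (U := {x, y}) (by
        intro z hz; rw [Finset.mem_insert, Finset.mem_singleton] at hz
        rcases hz with rfl | rfl <;> assumption)
      rw [Finset.prod_pair hxy] at this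
      rw [← this]
      refine Ex_congr fun T _ => ?_
      unfold I
      by_cases h1 : x ∈ T <;> by_cases h2 : y ∈ T <;> simp [Finset.insert_subset_iff, h1, h2]
    · rw [hV y hy, mul_zero, ← Ex_const (V := V) (p := p) 0]
      refine Ex_congr fun T hT => ?_
      unfold I
      rw [if_neg (fun h => hy (hT h)), mul_zero]
  · rw [hV x hx, zero_mul, ← Ex_const (V := V) (p := p) 0]
    refine Ex_congr fun T hT => ?_
    unfold I
    rw [if_neg (fun h => hx (hT h)), zero_mul]

lemma E2_mul (f g : Finset ι → ℝ) : E2 V p (fun T T' => f T * g T') = Ex V p f * Ex V p g := by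
  unfold E2
  have : (fun T => Ex V p (fun T' => f T * g T')) = fun T => f T * Ex V p g := by
    funext T; exact Ex_const_mul _ _
  rw [this, Ex_mul_const]

lemma E2_add (f g : Finset ι → Finset ι → ℝ) :
    E2 V p (fun T T' => f T T' + g T T') = E2 V p f + E2 V p g := by
  unfold E2
  simp only [Ex_add]

lemma E2_const_mul (c : ℝ) (f : Finset ι → Finset ι → ℝ) :
    E2 V p (fun T T' => c * f T T') = c * E2 V p f := by
  unfold E2
  simp only [Ex_const_mul]

lemma E2_sum {κ : Type*} (s : Finset κ) (f : κ → Finset ι → Finset ι → ℝ) :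
    E2 V p (fun T T' => ∑ k ∈ s, f k T T') = ∑ k ∈ s, E2 V p (f k) := by
  unfold E2
  simp only [Ex_sum]

lemma E2_mono (hp : ∀ x, 0 ≤ p x ∧ p x ≤ 1) {f g : Finset ι → Finset ι → ℝ}
    (h : ∀ T T', T ⊆ V → T' ⊆ V → f T T' ≤ g T T') : E2 V p f ≤ E2 V p g :=
  Ex_mono hp fun T hT => Ex_mono hp fun T' hT' => h T T' hT hT'

lemma E2_const (c : ℝ) : E2 V p (fun _ _ => c) = c := by
  unfold E2
  simp only [Ex_const]

lemma E2_left (f : Finset ι → ℝ) : E2 V p (fun T _ => f T) = Ex V p f := by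
  unfold E2
  simp only [Ex_const]

lemma E2_right (f : Finset ι → ℝ) : E2 V p (fun _ T' => f T') = Ex V p f := by
  unfold E2
  simp only [Ex_const]

/-- selection: an expectation below `1` gives a pair of sets with value below `1` -/
lemma exists_lt_one (hp : ∀ x, 0 ≤ p x ∧ p x ≤ 1) {f : Finset ι → Finset ι → ℝ}
    (h : E2 V p f < 1) : ∃ T T' : Finset ι, T ⊆ V ∧ T' ⊆ V ∧ f T T' < 1 := by
  by_contra hcon
  push Not at hcon
  have := E2_mono (V := V) (p := p) hp (f := fun _ _ => 1) (g := f)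
    (fun T T' hT hT' => hcon T T' hT hT')
  rw [E2_const] at this
  linarith

/-- the size of a random set has variance at most its mean -/
lemma card_var (hp : ∀ x, 0 ≤ p x ∧ p x ≤ 1) (hV : ∀ x, x ∉ V → p x = 0) :
    Ex V p (fun T => ((T.card : ℝ) - ∑ x ∈ V, p x) ^ 2) ≤ ∑ x ∈ V, p x := by
  set a := ∑ x ∈ V, p x with ha
  have hc : ∀ T, T ⊆ V → (T.card : ℝ) = ∑ x ∈ V, I T x := by
    intro T hT
    unfold I
    rw [Finset.sum_ite_mem, Finset.inter_eq_right.2 hT]
    simp
  have h1 : Ex V p (fun T => (T.card : ℝ)) = a := by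
    rw [Ex_congr (g := fun T => ∑ x ∈ V, I T x) hc, Ex_sum]
    exact Finset.sum_congr rfl fun x _ => Ex_I hV x
  have h2 : Ex V p (fun T => (T.card : ℝ) ^ 2) ≤ a + a ^ 2 := by
    rw [Ex_congr (g := fun T => ∑ x ∈ V, ∑ y ∈ V, I T x * I T y) (fun T hT => by
      rw [hc T hT, sq, Finset.sum_mul_sum])]
    simp only [Ex_sum]
    have : ∀ x ∈ V, ∀ y ∈ V, Ex V p (fun T => I T x * I T y) ≤
        (if x = y then p x else 0) + p x * p y := by
      intro x _ y _
      by_cases hxy : x = y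
      · subst hxy
        rw [if_pos rfl]
        have : (fun T => I T x * I T x) = fun T => I T x := by
          funext T; exact I_mul_self T x
        rw [this, Ex_I hV]
        nlinarith [(hp x).1]
      · rw [if_neg hxy, Ex_II hV hxy, zero_add]
    calc _ ≤ ∑ x ∈ V, ∑ y ∈ V, ((if x = y then p x else 0) + p x * p y) :=
          Finset.sum_le_sum fun x hx => Finset.sum_le_sum fun y hy => this x hx y hy
      _ = a + a ^ 2 := by
          simp only [Finset.sum_add_distrib, Finset.sum_ite_eq, ← Finset.mul_sum, ← Finset.sum_mul]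
          rw [sq]
          congr 1
          exact Finset.sum_congr rfl fun x hx => by rw [if_pos hx]
  have h3 : Ex V p (fun T => ((T.card : ℝ) - a) ^ 2) =
      Ex V p (fun T => (T.card : ℝ) ^ 2) + (-2 * a) * Ex V p (fun T => (T.card : ℝ)) + a ^ 2 := by
    rw [← Ex_const_mul, ← Ex_add, ← Ex_const (V := V) (p := p) (a ^ 2), ← Ex_add]
    refine Ex_congr fun T _ => ?_
    ring
  rw [h3, h1]
  nlinarith

/-- pairs of elements indexed by `J` -/
noncomputable def R {κ : Type*} (J : Finset κ) (f g : κ → ι) (T T' : Finset ι) : ℝ :=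
  ∑ j ∈ J, I T (f j) * I T' (g j)

lemma R_nonneg {κ : Type*} (J : Finset κ) (f g : κ → ι) (T T' : Finset ι) : 0 ≤ R J f g T T' :=
  Finset.sum_nonneg fun j _ => mul_nonneg (I_nonneg _ _) (I_nonneg _ _)

lemma E2_R {κ : Type*} (hV : ∀ x, x ∉ V → p x = 0) (J : Finset κ) (f g : κ → ι) :
    E2 V p (R J f g) = ∑ j ∈ J, p (f j) * p (g j) := by
  unfold R
  rw [E2_sum]
  exact Finset.sum_congr rfl fun j _ => by rw [E2_mul (fun T => I T (f j)), Ex_I hV, Ex_I hV]

lemma E2_R_sq {κ : Type*} [DecidableEq κ] (hp : ∀ x, 0 ≤ p x ∧ p x ≤ 1)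
    (hV : ∀ x, x ∉ V → p x = 0) (J : Finset κ)
    (f g : κ → ι) (hf : Set.InjOn f J) (hg : Set.InjOn g J) :
    E2 V p (fun T T' => R J f g T T' ^ 2) ≤
      (∑ j ∈ J, p (f j) * p (g j)) + (∑ j ∈ J, p (f j) * p (g j)) ^ 2 := by
  have h1 : (fun T T' => R J f g T T' ^ 2) = fun T T' => ∑ j ∈ J, ∑ j' ∈ J,
      (I T (f j) * I T (f j')) * (I T' (g j) * I T' (g j')) := by
    funext T T'
    unfold R
    rw [sq, Finset.sum_mul_sum]
    exact Finset.sum_congr rfl fun j _ => Finset.sum_congr rfl fun j' _ => by ring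
  rw [h1, E2_sum]
  simp only [E2_sum]
  have key : ∀ j ∈ J, ∀ j' ∈ J,
      E2 V p (fun T T' => (I T (f j) * I T (f j')) * (I T' (g j) * I T' (g j'))) ≤
        (if j = j' then p (f j) * p (g j) else 0) +
          (p (f j) * p (g j)) * (p (f j') * p (g j')) := by
    intro j hj j' hj'
    rw [E2_mul (fun T => I T (f j) * I T (f j')) (fun T' => I T' (g j) * I T' (g j'))]
    by_cases hjj : j = j'
    · subst hjj
      rw [if_pos rfl]
      have e1 : (fun T => I T (f j) * I T (f j)) = fun T => I T (f j) := by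
        funext T; exact I_mul_self T _
      have e2 : (fun T => I T (g j) * I T (g j)) = fun T => I T (g j) := by
        funext T; exact I_mul_self T _
      rw [e1, e2, Ex_I hV, Ex_I hV]
      have := mul_nonneg (hp (f j)).1 (hp (g j)).1
      nlinarith [mul_nonneg this this]
    · rw [if_neg hjj, Ex_II hV (fun h => hjj (hf hj hj' h)), Ex_II hV (fun h => hjj (hg hj hj' h))]
      rw [zero_add]
      apply le_of_eq
      ring
  calc _ ≤ ∑ j ∈ J, ∑ j' ∈ J, ((if j = j' then p (f j) * p (g j) else 0) +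
          (p (f j) * p (g j)) * (p (f j') * p (g j'))) :=
        Finset.sum_le_sum fun j hj => Finset.sum_le_sum fun j' hj' => key j hj j' hj'
    _ = _ := by
        simp only [Finset.sum_add_distrib, Finset.sum_ite_eq, ← Finset.mul_sum, ← Finset.sum_mul]
        rw [sq]
        congr 1
        exact Finset.sum_congr rfl fun x hx => by rw [if_pos hx]

lemma E2_R_var {κ : Type*} [DecidableEq κ] (hp : ∀ x, 0 ≤ p x ∧ p x ≤ 1)
    (hV : ∀ x, x ∉ V → p x = 0) (J : Finset κ)
    (f g : κ → ι) (hf : Set.InjOn f J) (hg : Set.InjOn g J) {m : ℝ}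
    (hm : m = ∑ j ∈ J, p (f j) * p (g j)) :
    E2 V p (fun T T' => (R J f g T T' - m) ^ 2) ≤ m := by
  have h1 := E2_R_sq hp hV J f g hf hg
  have h2 := E2_R hV J f g
  rw [← hm] at h1 h2
  have h3 : E2 V p (fun T T' => (R J f g T T' - m) ^ 2) =
      E2 V p (fun T T' => R J f g T T' ^ 2) + (-2 * m) * E2 V p (R J f g) + m ^ 2 := by
    rw [← E2_const_mul, ← E2_add]
    conv_rhs => rw [← E2_const (V := V) (p := p) (m ^ 2)]
    rw [← E2_add]
    congr 1
    funext T T'
    ring
  rw [h3, h2]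
  nlinarith

end basic

end Q137.FD
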