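import Mathlib
import Pool.Agent.Q137.FD.Prob
import Pool.Agent.Q137.FD.Ana

/-!
# Sums of dilates of random subsets of `F ^ n`
-/

namespace Q137.FD

open Finset Filter Topology

/-- product weight -/
noncomputable def P (α : ℤ → ℝ) (n : ℕ) (x : Fin n → ℤ) : ℝ := ∏ m, α (x m)

/-- the words over `F` -/
def V (F : Finset ℤ) (n : ℕ) : Finset (Fin n → ℤ) := Fintype.piFinset (fun _ => F)

/-- the fractional dilate `α + k · α` -/
noncomputable def gam (F : Finset ℤ) (α : ℤ → ℝ) (k z : ℤ) : ℝ := ∑ j ∈ F, α (z - k * j) * α j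

/-- its support -/
def WW (F : Finset ℤ) (k : ℤ) : Finset ℤ := (F ×ˢ F).image (fun q => q.1 + k * q.2)

/-- sums of dilates of sets of words -/
def sm {n : ℕ} (k : ℤ) (T T' : Finset (Fin n → ℤ)) : Finset (Fin n → ℤ) :=
  (T ×ˢ T').image (fun q m => q.1 m + k * q.2 m)

structure Good (F : Finset ℤ) (α : ℤ → ℝ) : Prop where
  zero : ∀ z, z ∉ F → α z = 0
  pos : ∀ z ∈ F, 0 < α z
  le : ∀ z, α z ≤ 1
  big : 1 < ∑ z ∈ F, α z

section

variable {F : Finset ℤ} {α : ℤ → ℝ} (h : Good F α) {k : ℤ}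

include h

lemma Good.nonneg (z : ℤ) : 0 ≤ α z := by
  by_cases hz : z ∈ F
  · exact (h.pos z hz).le
  · rw [h.zero z hz]

lemma Good.ne : F.Nonempty := by
  by_contra hF
  rw [Finset.not_nonempty_iff_eq_empty] at hF
  have := h.big
  rw [hF, Finset.sum_empty] at this
  linarith

lemma gam_pos {z : ℤ} (hz : z ∈ WW F k) : 0 < gam F α k z := by
  unfold WW at hz
  rw [Finset.mem_image] at hz
  obtain ⟨⟨i, j⟩, hij, rfl⟩ := hz
  rw [Finset.mem_product] at hij
  unfold gam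
  refine Finset.sum_pos' (fun j _ => mul_nonneg (h.nonneg _) (h.nonneg _)) ⟨j, hij.2, ?_⟩
  simp only [add_sub_cancel_right]
  exact mul_pos (h.pos i hij.1) (h.pos j hij.2)

lemma gam_zero {z : ℤ} (hz : z ∉ WW F k) : gam F α k z = 0 := by
  unfold gam
  refine Finset.sum_eq_zero fun j hj => ?_
  rw [h.zero (z - k * j), zero_mul]
  intro hc
  apply hz
  unfold WW
  rw [Finset.mem_image]
  exact ⟨(z - k * j, j), Finset.mem_product.2 ⟨hc, hj⟩, by simp⟩

lemma gam_le (z : ℤ) : gam F α k z ≤ ∑ j ∈ F, α j := by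
  unfold gam
  refine Finset.sum_le_sum fun j _ => ?_
  have := mul_le_mul_of_nonneg_right (h.le (z - k * j)) (h.nonneg j)
  linarith

lemma sum_gam : ∑ z ∈ WW F k, gam F α k z = (∑ j ∈ F, α j) ^ 2 := by
  unfold gam
  rw [Finset.sum_comm, sq, Finset.mul_sum]
  refine Finset.sum_congr rfl fun j hj => ?_
  have hsub : F.image (fun i => i + k * j) ⊆ WW F k := by
    intro z hz
    rw [Finset.mem_image] at hz
    obtain ⟨i, hi, rfl⟩ := hz
    unfold WW
    rw [Finset.mem_image]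
    exact ⟨(i, j), Finset.mem_product.2 ⟨hi, hj⟩, rfl⟩
  have : ∑ z ∈ WW F k, α (z - k * j) = ∑ i ∈ F, α i := by
    rw [← Finset.sum_subset hsub]
    · rw [Finset.sum_image (fun x _ y _ hxy => by simpa using hxy)]
      simp
    · intro z _ hz
      apply h.zero
      intro hc
      apply hz
      rw [Finset.mem_image]
      exact ⟨z - k * j, hc, by simp⟩
  rw [← Finset.sum_mul, this]

lemma WW_ne : (WW F k).Nonempty := by
  obtain ⟨z, hz⟩ := h.ne
  exact ⟨z + k * z, Finset.mem_image.2 ⟨(z, z), Finset.mem_product.2 ⟨hz, hz⟩, rfl⟩⟩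

lemma P_mem (n : ℕ) (x : Fin n → ℤ) : 0 ≤ P α n x ∧ P α n x ≤ 1 :=
  ⟨Finset.prod_nonneg fun m _ => h.nonneg _, Finset.prod_le_one (fun m _ => h.nonneg _)
    fun m _ => h.le _⟩

lemma P_zero (n : ℕ) (x : Fin n → ℤ) (hx : x ∉ V F n) : P α n x = 0 := by
  unfold V at hx
  rw [Fintype.mem_piFinset] at hx
  push Not at hx
  obtain ⟨m, hm⟩ := hx
  exact Finset.prod_eq_zero (Finset.mem_univ m) (h.zero _ hm)

omit h in
lemma sum_P (n : ℕ) : ∑ x ∈ V F n, P α n x = (∑ z ∈ F, α z) ^ n := by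
  have := Finset.prod_univ_sum (fun _ : Fin n => F) (fun _ z => α z)
  unfold V P
  rw [← this]
  simp

omit h in
lemma mu_eq (n : ℕ) (x : Fin n → ℤ) :
    ∑ j ∈ V F n, P α n (fun m => x m - k * j m) * P α n j = ∏ m, gam F α k (x m) := by
  have := Finset.prod_univ_sum (fun _ : Fin n => F) (fun m c => α (x m - k * c) * α c)
  unfold gam
  rw [this]
  unfold V P
  exact Finset.sum_congr rfl fun j _ => by rw [Finset.prod_mul_distrib]

/-- number of representations `x = i + k j` -/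
noncomputable def rr {n : ℕ} (F : Finset ℤ) (k : ℤ) (x : Fin n → ℤ)
    (T T' : Finset (Fin n → ℤ)) : ℝ :=
  R (V F n) (fun j m => x m - k * j m) (fun j => j) T T'

omit h in
lemma rr_eq_zero {n : ℕ} {x : Fin n → ℤ} {T T' : Finset (Fin n → ℤ)}
    (hx : x ∉ sm k T T') : rr F k x T T' = 0 := by
  unfold rr R
  refine Finset.sum_eq_zero fun j _ => ?_
  unfold I
  by_cases h1 : (fun m => x m - k * j m) ∈ T
  · by_cases h2 : j ∈ T'
    · exfalso
      apply hx
      unfold sm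
      rw [Finset.mem_image]
      exact ⟨(_, j), Finset.mem_product.2 ⟨h1, h2⟩, by simp⟩
    · rw [if_neg h2, mul_zero]
  · rw [if_neg h1, zero_mul]

omit h in
lemma one_le_rr {n : ℕ} {x : Fin n → ℤ} {T T' : Finset (Fin n → ℤ)} (hT' : T' ⊆ V F n)
    (hx : x ∈ sm k T T') : 1 ≤ rr F k x T T' := by
  unfold sm at hx
  rw [Finset.mem_image] at hx
  obtain ⟨⟨i, j⟩, hij, rfl⟩ := hx
  rw [Finset.mem_product] at hij
  unfold rr R
  have hle := Finset.single_le_sum
    (f := fun j' : Fin n → ℤ => I T (fun m => (fun m => i m + k * j m) m - k * j' m) * I T' j')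
    (fun j' _ => mul_nonneg (I_nonneg _ _) (I_nonneg _ _)) (hT' hij.2)
  refine le_trans (le_of_eq ?_) hle
  have e : (fun m => (fun m => i m + k * j m) m - k * j m) = i := by
    funext m; simp
  rw [e]
  unfold I
  rw [if_pos hij.1, if_pos hij.2, mul_one]

omit h in
lemma rr_nonneg {n : ℕ} (x : Fin n → ℤ) (T T' : Finset (Fin n → ℤ)) : 0 ≤ rr F k x T T' :=
  R_nonneg _ _ _ _ _

omit h in
lemma inj_left (hk : k ≠ 0) {n : ℕ} (x : Fin n → ℤ) (S : Set (Fin n → ℤ)) :
    Set.InjOn (fun (j : Fin n → ℤ) m => x m - k * j m) S := by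
  intro j _ j' _ hjj
  funext m
  have := congrFun hjj m
  simp only at this
  have : k * j m = k * j' m := by linarith
  exact mul_left_cancel₀ hk this

lemma E2_rr {n : ℕ} (x : Fin n → ℤ) :
    E2 (V F n) (P α n) (rr F k x) = ∏ m, gam F α k (x m) := by
  unfold rr
  rw [E2_R (P_zero h n), mu_eq]

lemma E2_rr_sq (hk : k ≠ 0) {n : ℕ} (x : Fin n → ℤ) :
    E2 (V F n) (P α n) (fun T T' => rr F k x T T' ^ 2) ≤
      ∏ m, gam F α k (x m) + (∏ m, gam F α k (x m)) ^ 2 := by
  unfold rr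
  have := E2_R_sq (P_mem h n) (P_zero h n) (V F n) (fun (j : Fin n → ℤ) m => x m - k * j m)
    (fun j => j) (inj_left hk x _) (fun _ _ _ _ h => h)
  rw [mu_eq] at this
  exact this

lemma E2_rr_var (hk : k ≠ 0) {n : ℕ} (x : Fin n → ℤ) :
    E2 (V F n) (P α n) (fun T T' => (rr F k x T T' - ∏ m, gam F α k (x m)) ^ 2) ≤
      ∏ m, gam F α k (x m) := by
  unfold rr
  exact E2_R_var (P_mem h n) (P_zero h n) (V F n) (fun (j : Fin n → ℤ) m => x m - k * j m)
    (fun j => j) (inj_left hk x _) (fun _ _ _ _ h => h) (mu_eq n x).symm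

omit h in
lemma sm_sub {n : ℕ} {T T' : Finset (Fin n → ℤ)} (hT : T ⊆ V F n) (hT' : T' ⊆ V F n) :
    sm k T T' ⊆ Fintype.piFinset (fun _ : Fin n => WW F k) := by
  intro x hx
  unfold sm at hx
  rw [Finset.mem_image] at hx
  obtain ⟨⟨i, j⟩, hij, rfl⟩ := hx
  rw [Finset.mem_product] at hij
  rw [Fintype.mem_piFinset]
  intro m
  have h1 := hT hij.1
  have h2 := hT' hij.2
  unfold V at h1 h2
  rw [Fintype.mem_piFinset] at h1 h2
  exact Finset.mem_image.2 ⟨(i m, j m), Finset.mem_product.2 ⟨h1 m, h2 m⟩, rfl⟩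

/-- total number of representations -/
lemma sum_rr {n : ℕ} {T T' : Finset (Fin n → ℤ)} (hT : T ⊆ V F n) (hT' : T' ⊆ V F n) :
    ∑ x ∈ Fintype.piFinset (fun _ : Fin n => WW F k), rr F k x T T' = T.card * T'.card := by
  unfold rr R
  rw [Finset.sum_comm]
  have h1 : ∀ j ∈ V F n, ∑ x ∈ Fintype.piFinset (fun _ : Fin n => WW F k),
      I T (fun m => x m - k * j m) * I T' j = T.card * I T' j := by
    intro j hj
    rw [← Finset.sum_mul]
    by_cases hj' : j ∈ T'
    · congr 1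
      unfold I
      rw [Finset.sum_boole]
      norm_cast
      refine Finset.card_bij (fun x _ => fun m => x m - k * j m) ?_ ?_ ?_
      · intro x hx
        exact (Finset.mem_filter.1 hx).2
      · intro x _ y _ hxy
        funext m
        have h5 : x m - k * j m = y m - k * j m := congrFun hxy m
        linarith
      · intro i hi
        refine ⟨fun m => i m + k * j m, ?_, by funext m; simp⟩
        rw [Finset.mem_filter]
        constructor
        · exact sm_sub hT hT' (Finset.mem_image.2 ⟨(i, j), Finset.mem_product.2 ⟨hi, hj'⟩, rfl⟩)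
        · have : (fun m => (fun m => i m + k * j m) m - k * j m) = i := by funext m; simp
          rw [this]; exact hi
    · unfold I
      rw [if_neg hj', mul_zero, mul_zero]
  rw [Finset.sum_congr rfl h1, ← Finset.mul_sum]
  congr 1
  unfold I
  rw [Finset.sum_ite_mem, Finset.inter_eq_right.2 hT']
  simp

/-- case A, one set `Q` -/
lemma caseA (hk : k ≠ 0) {n : ℕ} (Q : Finset (Fin n → ℤ)) {M : ℝ} (hM : 0 < M)
    (hQ : ∀ x ∈ Q, M ≤ ∏ m, gam F α k (x m)) (hQ0 : Q.Nonempty) :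
    ∃ Φ : Finset (Fin n → ℤ) → Finset (Fin n → ℤ) → ℝ, (∀ T T', 0 ≤ Φ T T') ∧
      E2 (V F n) (P α n) Φ ≤ 2 / M ∧
      ∀ T T', T ⊆ V F n → T' ⊆ V F n → Φ T T' < 1 → (Q.card : ℝ) ≤ 2 * (sm k T T').card := by
  have hQc : (0:ℝ) < Q.card := by exact_mod_cast hQ0.card_pos
  set mu : (Fin n → ℤ) → ℝ := fun x => ∏ m, gam F α k (x m) with hmu
  refine ⟨fun T T' => ∑ x ∈ Q, (2 / (Q.card * mu x ^ 2)) * (rr F k x T T' - mu x) ^ 2, ?_, ?_, ?_⟩
  · intro T T'
    exact Finset.sum_nonneg fun x _ => by positivity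
  · rw [E2_sum]
    calc _ ≤ ∑ x ∈ Q, 2 / (Q.card * M) := by
          refine Finset.sum_le_sum fun x hx => ?_
          rw [E2_const_mul (2 / (Q.card * mu x ^ 2)) (fun T T' => (rr F k x T T' - mu x) ^ 2)]
          have h1 := E2_rr_var h hk x
          have hx0 : 0 < mu x := lt_of_lt_of_le hM (hQ x hx)
          calc _ ≤ 2 / (Q.card * mu x ^ 2) * mu x := by gcongr
            _ = 2 / (Q.card * mu x) := by field_simp
            _ ≤ 2 / (Q.card * M) := by
              have := hQ x hx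
              gcongr
      _ = 2 / M := by
          rw [Finset.sum_const, nsmul_eq_mul]
          field_simp
  · intro T T' _ _ hΦ
    have h1 : ∑ x ∈ Q, (2 / (Q.card * mu x ^ 2)) * (rr F k x T T' - mu x) ^ 2 ≥
        ∑ x ∈ Q.filter (fun x => x ∉ sm k T T'), 2 / (Q.card : ℝ) := by
      rw [Finset.sum_filter]
      refine Finset.sum_le_sum fun x hx => ?_
      have hx0 : 0 < mu x := lt_of_lt_of_le hM (hQ x hx)
      by_cases hc : x ∈ sm k T T'
      · rw [if_neg (not_not.2 hc)]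
        positivity
      · rw [if_pos hc, rr_eq_zero hc, zero_sub, neg_sq]
        apply le_of_eq
        field_simp
    rw [Finset.sum_const, nsmul_eq_mul] at h1
    have h2 : ((Q.filter (fun x => x ∉ sm k T T')).card : ℝ) * 2 < Q.card := by
      have := lt_of_le_of_lt h1 hΦ
      rw [mul_div_assoc', div_lt_one hQc] at this
      exact this
    have h3 : Q.card = (Q.filter (fun x => x ∈ sm k T T')).card +
        (Q.filter (fun x => x ∉ sm k T T')).card := (Finset.card_filter_add_card_filter_not _).symm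
    have h4 : (Q.filter (fun x => x ∈ sm k T T')).card ≤ (sm k T T').card :=
      Finset.card_le_card fun x hx => (Finset.mem_filter.1 hx).2
    have h3' : (Q.card : ℝ) = (Q.filter (fun x => x ∈ sm k T T')).card +
        (Q.filter (fun x => x ∉ sm k T T')).card := by exact_mod_cast h3
    have h4' : ((Q.filter (fun x => x ∈ sm k T T')).card : ℝ) ≤ (sm k T T').card := by
      exact_mod_cast h4
    linarith

/-- case B, one set `Q` -/
lemma caseB (hk : k ≠ 0) {n : ℕ} {L ρ : ℝ} (hL : 1 ≤ L) (hρ : 0 ≤ ρ)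
    (hfew : ∑ x ∈ (Fintype.piFinset (fun _ : Fin n => WW F k)).filter
        (fun x => ¬ ∏ m, gam F α k (x m) ≤ L), ∏ m, gam F α k (x m) ≤
        ((∑ z ∈ F, α z) ^ 2) ^ n * ρ) :
    ∃ Φ : Finset (Fin n → ℤ) → Finset (Fin n → ℤ) → ℝ, (∀ T T', 0 ≤ Φ T T') ∧
      E2 (V F n) (P α n) Φ ≤ 8 * ρ + 1 / L ∧
      ∀ T T', T ⊆ V F n → T' ⊆ V F n → Φ T T' < 1 →
        (∑ z ∈ F, α z) ^ n / 2 ≤ T.card → (∑ z ∈ F, α z) ^ n / 2 ≤ T'.card →
        ((∑ z ∈ F, α z) ^ 2) ^ n / (128 * L ^ 2) ≤ (sm k T T').card := by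
  set a := ∑ z ∈ F, α z with ha
  have ha0 : 0 < a := lt_trans one_pos h.big
  set A := (a ^ 2) ^ n with hA
  have hA0 : 0 < A := by positivity
  set W := Fintype.piFinset (fun _ : Fin n => WW F k) with hW
  set mu : (Fin n → ℤ) → ℝ := fun x => ∏ m, gam F α k (x m) with hmu
  have hmu0 : ∀ x ∈ W, 0 < mu x := fun x hx => Finset.prod_pos fun m _ =>
    gam_pos h (by rw [hW, Fintype.mem_piFinset] at hx; exact hx m)
  set B := W.filter (fun x => ¬ mu x ≤ L) with hB
  set Q := W.filter (fun x => mu x ≤ L) with hQ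
  have hsumW : ∑ x ∈ W, mu x = A := by
    have := Finset.prod_univ_sum (fun _ : Fin n => WW F k) (fun _ z => gam F α k z)
    rw [hmu, hW, ← this, hA, sum_gam h, Finset.prod_const, Finset.card_univ, Fintype.card_fin]
  refine ⟨fun T T' => (8 / A) * ∑ x ∈ B, rr F k x T T' +
    (1 / (2 * L ^ 2 * A)) * ∑ x ∈ Q, rr F k x T T' ^ 2, ?_, ?_, ?_⟩
  · intro T T'
    have h1 : 0 ≤ ∑ x ∈ B, rr F k x T T' := Finset.sum_nonneg fun x _ => rr_nonneg _ _ _
    have h2 : 0 ≤ ∑ x ∈ Q, rr F k x T T' ^ 2 := Finset.sum_nonneg fun x _ => sq_nonneg _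
    positivity
  · rw [E2_add (fun T T' => (8 / A) * ∑ x ∈ B, rr F k x T T')
      (fun T T' => (1 / (2 * L ^ 2 * A)) * ∑ x ∈ Q, rr F k x T T' ^ 2),
      E2_const_mul (8 / A) (fun T T' => ∑ x ∈ B, rr F k x T T'),
      E2_const_mul (1 / (2 * L ^ 2 * A)) (fun T T' => ∑ x ∈ Q, rr F k x T T' ^ 2),
      E2_sum, E2_sum]
    have h1 : ∑ x ∈ B, E2 (V F n) (P α n) (fun T T' => rr F k x T T') ≤ A * ρ := by
      refine le_trans (le_of_eq ?_) hfew
      exact Finset.sum_congr rfl fun x _ => E2_rr h x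
    have h2 : ∑ x ∈ Q, E2 (V F n) (P α n) (fun T T' => rr F k x T T' ^ 2) ≤ A * (2 * L) := by
      calc _ ≤ ∑ x ∈ Q, mu x * (2 * L) := by
            refine Finset.sum_le_sum fun x hx => (E2_rr_sq h hk x).trans ?_
            rw [hQ, Finset.mem_filter] at hx
            have := hmu0 x hx.1
            have h3 := hx.2
            simp only [hmu] at this h3 ⊢
            nlinarith [mul_le_mul_of_nonneg_left h3 this.le, mul_le_mul_of_nonneg_left hL this.le]
        _ = (∑ x ∈ Q, mu x) * (2 * L) := by rw [Finset.sum_mul]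
        _ ≤ A * (2 * L) := by
            gcongr
            rw [← hsumW, hQ]
            exact Finset.sum_le_sum_of_subset_of_nonneg (Finset.filter_subset _ _)
              fun x hx _ => (hmu0 x hx).le
    have h3 : 8 / A * ∑ x ∈ B, E2 (V F n) (P α n) (fun T T' => rr F k x T T') ≤ 8 * ρ := by
      calc _ ≤ 8 / A * (A * ρ) := by gcongr
        _ = 8 * ρ := by field_simp
    have h4 : 1 / (2 * L ^ 2 * A) *
        ∑ x ∈ Q, E2 (V F n) (P α n) (fun T T' => rr F k x T T' ^ 2) ≤ 1 / L := by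
      calc _ ≤ 1 / (2 * L ^ 2 * A) * (A * (2 * L)) := by gcongr
        _ = 1 / L := by field_simp
    exact add_le_add h3 h4
  · intro T T' hT hT' hΦ hc hc'
    have h1 : 0 ≤ ∑ x ∈ B, rr F k x T T' := Finset.sum_nonneg fun x _ => rr_nonneg _ _ _
    have h2 : 0 ≤ ∑ x ∈ Q, rr F k x T T' ^ 2 := Finset.sum_nonneg fun x _ => sq_nonneg _
    have p1 : 0 ≤ (8 / A) * ∑ x ∈ B, rr F k x T T' := by positivity
    have p2 : 0 ≤ (1 / (2 * L ^ 2 * A)) * ∑ x ∈ Q, rr F k x T T' ^ 2 := by positivity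
    have h3 : ∑ x ∈ B, rr F k x T T' ≤ A / 8 := by
      have : (8 / A) * ∑ x ∈ B, rr F k x T T' ≤ 1 := by linarith
      rw [div_mul_eq_mul_div, div_le_one hA0] at this
      linarith
    have h4 : ∑ x ∈ Q, rr F k x T T' ^ 2 ≤ 2 * L ^ 2 * A := by
      have : (1 / (2 * L ^ 2 * A)) * ∑ x ∈ Q, rr F k x T T' ^ 2 ≤ 1 := by linarith
      rw [div_mul_eq_mul_div, div_le_one (by positivity)] at this
      linarith
    have h5 : A / 4 ≤ ∑ x ∈ W, rr F k x T T' := by
      rw [hW, sum_rr h hT hT']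
      calc A / 4 = (a ^ n / 2) * (a ^ n / 2) := by
            rw [hA, ← pow_mul, mul_comm 2 n, pow_mul]; ring
        _ ≤ _ := by gcongr
    have h6 : ∑ x ∈ W, rr F k x T T' = ∑ x ∈ Q, rr F k x T T' + ∑ x ∈ B, rr F k x T T' :=
      (Finset.sum_filter_add_sum_filter_not W _ _).symm
    have h7 : A / 8 ≤ ∑ x ∈ Q, rr F k x T T' := by linarith
    set Q' := Q.filter (fun x => x ∈ sm k T T') with hQ'
    have h8 : ∑ x ∈ Q, rr F k x T T' = ∑ x ∈ Q', rr F k x T T' := by
      refine (Finset.sum_subset (Finset.filter_subset _ _) fun x hx hx' => ?_).symm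
      exact rr_eq_zero fun hc => hx' (Finset.mem_filter.2 ⟨hx, hc⟩)
    have h9 : (∑ x ∈ Q', rr F k x T T') ^ 2 ≤ Q'.card * ∑ x ∈ Q', rr F k x T T' ^ 2 :=
      sq_sum_le_card_mul_sum_sq
    have h10 : ∑ x ∈ Q', rr F k x T T' ^ 2 ≤ 2 * L ^ 2 * A :=
      (Finset.sum_le_sum_of_subset_of_nonneg (Finset.filter_subset _ _)
        fun x _ _ => sq_nonneg _).trans h4
    have h11 : (Q'.card : ℝ) ≤ (sm k T T').card := by
      exact_mod_cast Finset.card_le_card fun x hx => (Finset.mem_filter.1 hx).2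
    rw [h8] at h7
    have h12 : (A / 8) ^ 2 ≤ (sm k T T').card * (2 * L ^ 2 * A) := by
      calc (A / 8) ^ 2 ≤ (∑ x ∈ Q', rr F k x T T') ^ 2 := by gcongr
        _ ≤ Q'.card * ∑ x ∈ Q', rr F k x T T' ^ 2 := h9
        _ ≤ _ := by gcongr
    rw [div_le_iff₀ (by positivity)]
    have h13 : A * A ≤ A * ((sm k T T').card * (128 * L ^ 2)) := by nlinarith
    exact le_of_mul_le_mul_left h13 hA0

end

end Q137.FD
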