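import Mathlib
import Pool.Agent.Q137.FD.Low

/-!
# Two random sets of words with all sums of dilates of the right size
-/

namespace Q137.FD

open Finset Filter Topology

section

variable {F : Finset ℤ} {α : ℤ → ℝ} (h : Good F α) {k : ℤ}

include h

omit h in
lemma exp_neg_tendsto {θ : ℝ} (hθ : 0 < θ) (c : ℝ) :
    Tendsto (fun n : ℕ => c / Real.exp (θ * n)) atTop (𝓝 0) := by
  have h1 : Tendsto (fun n : ℕ => θ * (n : ℝ)) atTop atTop :=
    Tendsto.const_mul_atTop hθ tendsto_natCast_atTop_atTop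
  have h2 := Real.tendsto_exp_atTop.comp h1
  exact h2.const_div_atTop c

lemma G_one (k : ℤ) : G (WW F k) (gam F α k) 1 = (∑ z ∈ F, α z) ^ 2 := by
  rw [← sum_gam h (k := k)]
  unfold G
  refine Finset.sum_congr rfl fun z hz => ?_
  rw [one_mul, Real.exp_log (gam_pos h hz)]

lemma lower_seq (hk : k ≠ 0) {Γ : ℝ} (hΓ0 : 0 < Γ)
    (hΓ : ∀ p ∈ Set.Icc (0:ℝ) 1, Γ ≤ G (WW F k) (gam F α k) p) {δ : ℝ} (hδ : 0 < δ) :
    ∃ c : ℕ → ℝ, Tendsto c atTop (𝓝 0) ∧ ∀ᶠ n in atTop,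
      ∃ Φ : Finset (Fin n → ℤ) → Finset (Fin n → ℤ) → ℝ, (∀ T T', 0 ≤ Φ T T') ∧
      E2 (V F n) (P α n) Φ ≤ c n ∧
      ∀ T T', T ⊆ V F n → T' ⊆ V F n → Φ T T' < 1 →
        (∑ z ∈ F, α z) ^ n / 2 ≤ T.card → (∑ z ∈ F, α z) ^ n / 2 ≤ T'.card →
        Γ ^ n * Real.exp (-(δ * n)) ≤ (sm k T T').card := by
  have hW := WW_ne h (k := k)
  have hlarge : ∀ C : ℝ, ∀ᶠ n : ℕ in atTop, C ≤ Real.exp (δ / 2 * n) := by
    intro C
    have h1 : Tendsto (fun n : ℕ => δ / 2 * (n : ℝ)) atTop atTop :=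
      Tendsto.const_mul_atTop (by positivity) tendsto_natCast_atTop_atTop
    exact (Real.tendsto_exp_atTop.comp h1).eventually_ge_atTop C
  by_cases hD : 0 < D (WW F k) (gam F α k) 1
  · obtain ⟨p, hp0, hp1, hDp, hpδ⟩ := exists_tilt hW hD (show 0 < δ / 2 by positivity)
    obtain ⟨θ, hθ, n₀, hn₀⟩ := many_words hW (fun z hz => gam_pos h hz) hp0 hDp hpδ
    refine ⟨fun n => 2 / Real.exp (θ * n), exp_neg_tendsto hθ 2, ?_⟩
    filter_upwards [eventually_ge_atTop n₀, hlarge 4] with n hn h4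
    obtain ⟨Q, _, hQ1, hQ2⟩ := hn₀ n hn
    have hGp := G_pos (γ := gam F α k) hW p
    have hQ0 : Q.Nonempty := by
      rw [← Finset.card_pos]
      have : 0 < 2 * (Q.card : ℝ) := lt_of_lt_of_le (by positivity) hQ2
      exact_mod_cast (by linarith : (0:ℝ) < Q.card)
    obtain ⟨Φ, hΦ0, hΦE, hΦ⟩ := caseA h hk Q (Real.exp_pos (θ * n)) hQ1 hQ0
    refine ⟨Φ, hΦ0, hΦE, fun T T' hT hT' hlt _ _ => ?_⟩
    have h1 := hΦ T T' hT hT' hlt
    have h2 : Γ ^ n ≤ G (WW F k) (gam F α k) p ^ n := by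
      gcongr
      exact hΓ p ⟨hp0, hp1⟩
    have h3 : Γ ^ n * Real.exp (-(δ / 2 * n)) ≤ 4 * (sm k T T').card := by
      calc _ ≤ G (WW F k) (gam F α k) p ^ n * Real.exp (-(δ / 2 * n)) := by gcongr
        _ ≤ 2 * Q.card := hQ2
        _ ≤ 4 * (sm k T T').card := by linarith
    have h5 : Real.exp (-(δ * n)) * 4 ≤ Real.exp (-(δ / 2 * n)) := by
      calc _ ≤ Real.exp (-(δ * n)) * Real.exp (δ / 2 * n) := by gcongr
        _ = _ := by rw [← Real.exp_add]; congr 1; ring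
    have h6 : Γ ^ n * (Real.exp (-(δ * n)) * 4) ≤ 4 * (sm k T T').card := by
      refine le_trans ?_ h3
      gcongr
    linarith
  · push Not at hD
    obtain ⟨ρ, hρ0, hρ1, hρ⟩ := few_mass hW (fun z hz => gam_pos h hz) hD
      (show 0 < δ / 4 by positivity)
    refine ⟨fun n => 8 * ρ ^ n + 1 / Real.exp (δ / 4 * n), ?_, ?_⟩
    · have h1 := (tendsto_pow_atTop_nhds_zero_of_lt_one hρ0 hρ1).const_mul 8
      have h2 := exp_neg_tendsto (show 0 < δ / 4 by positivity) 1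
      simpa using h1.add h2
    filter_upwards [hlarge 128] with n h128
    have hfew := hρ n
    rw [sum_gam h] at hfew
    obtain ⟨Φ, hΦ0, hΦE, hΦ⟩ := caseB h hk (L := Real.exp (δ / 4 * n)) (ρ := ρ ^ n)
      (Real.one_le_exp (by positivity)) (by positivity) hfew
    refine ⟨Φ, hΦ0, hΦE, fun T T' hT hT' hlt hc hc' => ?_⟩
    refine le_trans ?_ (hΦ T T' hT hT' hlt hc hc')
    have h2 : Γ ^ n ≤ ((∑ z ∈ F, α z) ^ 2) ^ n := by
      gcongr
      rw [← G_one h k]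
      exact hΓ 1 ⟨zero_le_one, le_rfl⟩
    rw [le_div_iff₀ (by positivity)]
    have e1 : Real.exp (δ / 4 * n) ^ 2 = Real.exp (δ / 2 * n) := by
      rw [sq, ← Real.exp_add]; congr 1; ring
    rw [e1]
    calc Γ ^ n * Real.exp (-(δ * n)) * (128 * Real.exp (δ / 2 * n))
        ≤ Γ ^ n * Real.exp (-(δ * n)) * (Real.exp (δ / 2 * n) * Real.exp (δ / 2 * n)) := by
          gcongr
      _ = Γ ^ n * (Real.exp (-(δ * n)) * (Real.exp (δ / 2 * n) * Real.exp (δ / 2 * n))) := by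
          ring
      _ = Γ ^ n := by
          rw [← Real.exp_add, ← Real.exp_add]
          have : -(δ * n) + (δ / 2 * n + δ / 2 * n) = 0 := by ring
          rw [this, Real.exp_zero, mul_one]
      _ ≤ _ := h2

omit h in
lemma E2_swap {n : ℕ} (f : Finset (Fin n → ℤ) → Finset (Fin n → ℤ) → ℝ) :
    E2 (V F n) (P α n) (fun T T' => f T' T) = E2 (V F n) (P α n) f := by
  unfold E2 Ex
  simp only [Finset.mul_sum]
  rw [Finset.sum_comm]
  exact Finset.sum_congr rfl fun T _ => Finset.sum_congr rfl fun T' _ => by ring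

/-- `min 1 m ≤ m ^ p` -/
lemma min_le_pow {n : ℕ} {x : Fin n → ℤ} (hx : x ∈ Fintype.piFinset (fun _ : Fin n => WW F k))
    {p : ℝ} (hp0 : 0 ≤ p) (hp1 : p ≤ 1) : min 1 (∏ m, gam F α k (x m)) ≤
      ∏ m, Real.exp (p * Real.log (gam F α k (x m))) := by
  rw [Fintype.mem_piFinset] at hx
  have hpos : 0 < ∏ m, gam F α k (x m) := Finset.prod_pos fun m _ => gam_pos h (hx m)
  have e1 : ∏ m, Real.exp (p * Real.log (gam F α k (x m))) =
      Real.exp (p * Real.log (∏ m, gam F α k (x m))) := by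
    rw [← Real.exp_sum, ← Finset.mul_sum, Real.log_prod (fun m _ => (gam_pos h (hx m)).ne')]
  rw [e1]
  rcases le_total 1 (∏ m, gam F α k (x m)) with h1 | h1
  · refine (min_le_left _ _).trans (Real.one_le_exp ?_)
    exact mul_nonneg hp0 (Real.log_nonneg h1)
  · refine (min_le_right _ _).trans ?_
    have : Real.log (∏ m, gam F α k (x m)) ≤ 0 := Real.log_nonpos hpos.le h1
    calc ∏ m, gam F α k (x m) = Real.exp (Real.log (∏ m, gam F α k (x m))) :=
          (Real.exp_log hpos).symm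
      _ ≤ _ := Real.exp_le_exp.2 (by nlinarith)

omit h in
lemma sum_pow_eq (n : ℕ) (p : ℝ) : ∑ x ∈ Fintype.piFinset (fun _ : Fin n => WW F k),
    ∏ m, Real.exp (p * Real.log (gam F α k (x m))) = G (WW F k) (gam F α k) p ^ n := by
  have := Finset.prod_univ_sum (fun _ : Fin n => WW F k)
    (fun _ z => Real.exp (p * Real.log (gam F α k z)))
  rw [← this, G, Finset.prod_const, Finset.card_univ, Fintype.card_fin]

omit h in
lemma card_sm_eq {n : ℕ} {T T' : Finset (Fin n → ℤ)} (hT : T ⊆ V F n) (hT' : T' ⊆ V F n) :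
    ((sm k T T').card : ℝ) = ∑ x ∈ Fintype.piFinset (fun _ : Fin n => WW F k),
      I (sm k T T') x := by
  unfold I
  rw [Finset.sum_ite_mem, Finset.inter_eq_right.2 (sm_sub hT hT')]
  simp

omit h in
lemma I_le_rr {n : ℕ} {T T' : Finset (Fin n → ℤ)} (hT' : T' ⊆ V F n) (x : Fin n → ℤ) :
    I (sm k T T') x ≤ rr F k x T T' := by
  unfold I
  split_ifs with hx
  · exact one_le_rr hT' hx
  · exact rr_nonneg _ _ _

lemma E2_card {n : ℕ} {p : ℝ} (hp0 : 0 ≤ p) (hp1 : p ≤ 1) :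
    E2 (V F n) (P α n) (fun T T' => ((sm k T T').card : ℝ)) ≤
      G (WW F k) (gam F α k) p ^ n := by
  rw [← sum_pow_eq n p]
  calc _ ≤ E2 (V F n) (P α n) (fun T T' => ∑ x ∈ Fintype.piFinset (fun _ : Fin n => WW F k),
        I (sm k T T') x) := E2_mono (P_mem h n) fun T T' hT hT' => (card_sm_eq hT hT').le
    _ = ∑ x ∈ Fintype.piFinset (fun _ : Fin n => WW F k),
        E2 (V F n) (P α n) (fun T T' => I (sm k T T') x) := E2_sum _ _
    _ ≤ _ := by
        refine Finset.sum_le_sum fun x hx => le_trans (le_min ?_ ?_) (min_le_pow h hx hp0 hp1)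
        · have := E2_mono (P_mem h n) (V := V F n) (f := fun T T' => I (sm k T T') x)
            (g := fun _ _ => 1) (fun T T' _ _ => I_le_one _ _)
          rwa [E2_const] at this
        · have := E2_mono (P_mem h n) (V := V F n) (f := fun T T' => I (sm k T T') x)
            (g := fun T T' => rr F k x T T') (fun T T' _ hT' => I_le_rr hT' x)
          rwa [E2_rr h x] at this

lemma Ex_card {n : ℕ} {p : ℝ} (hp0 : 0 ≤ p) (hp1 : p ≤ 1) :
    Ex (V F n) (P α n) (fun T => ((sm k T T).card : ℝ)) ≤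
      G (WW F k) (gam F α k) p ^ n + (∑ z ∈ F, α z) ^ n := by
  set W := Fintype.piFinset (fun _ : Fin n => WW F k) with hW
  set d : (Fin n → ℤ) → ℝ := fun x => ∑ j ∈ V F n,
    if (fun m => x m - k * j m) = j then P α n j else 0 with hd
  have hd0 : ∀ x, 0 ≤ d x := fun x => Finset.sum_nonneg fun j _ => by
    split_ifs
    · exact (P_mem h n j).1
    · exact le_rfl
  have hdsum : ∑ x ∈ W, d x ≤ (∑ z ∈ F, α z) ^ n := by
    rw [← sum_P, hd, Finset.sum_comm]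
    refine Finset.sum_le_sum fun j _ => ?_
    rw [← Finset.sum_filter, Finset.sum_const, nsmul_eq_mul]
    have hc : (W.filter (fun x => (fun m => x m - k * j m) = j)).card ≤ 1 := by
      rw [Finset.card_le_one]
      intro x hx y hy
      rw [Finset.mem_filter] at hx hy
      funext m
      have h1 : x m - k * j m = j m := congrFun hx.2 m
      have h2 : y m - k * j m = j m := congrFun hy.2 m
      linarith
    have hc' : ((W.filter (fun x => (fun m => x m - k * j m) = j)).card : ℝ) ≤ 1 := by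
      exact_mod_cast hc
    calc _ ≤ 1 * P α n j := mul_le_mul_of_nonneg_right hc' (P_mem h n j).1
      _ = _ := one_mul _
  have hx1 : ∀ x ∈ W, Ex (V F n) (P α n) (fun T => I (sm k T T) x) ≤
      ∏ m, Real.exp (p * Real.log (gam F α k (x m))) + d x := by
    intro x hx
    have a1 : Ex (V F n) (P α n) (fun T => I (sm k T T) x) ≤ 1 := by
      have := Ex_mono (P_mem h n) (V := V F n) (f := fun T => I (sm k T T) x)
        (g := fun _ => 1) (fun T _ => I_le_one _ _)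
      rwa [Ex_const] at this
    have a2 : Ex (V F n) (P α n) (fun T => I (sm k T T) x) ≤ ∏ m, gam F α k (x m) + d x := by
      refine le_trans (Ex_mono (P_mem h n) (g := fun T => rr F k x T T)
        fun T hT => I_le_rr hT x) ?_
      unfold rr R
      rw [Ex_sum, hd, ← mu_eq n x, ← Finset.sum_add_distrib]
      refine Finset.sum_le_sum fun j _ => ?_
      by_cases hj : (fun m => x m - k * j m) = j
      · rw [if_pos hj]
        have : (fun T : Finset (Fin n → ℤ) => I T (fun m => x m - k * j m) * I T j) =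
            fun T => I T j := by
          funext T
          rw [hj]
          exact I_mul_self T j
        rw [this, Ex_I (P_zero h n)]
        have := mul_nonneg (P_mem h n (fun m => x m - k * j m)).1 (P_mem h n j).1
        linarith
      · rw [if_neg hj, Ex_II (P_zero h n) hj, add_zero]
    have a3 := min_le_pow h hx hp0 hp1
    rcases le_total 1 (∏ m, gam F α k (x m)) with hc | hc
    · rw [min_eq_left hc] at a3
      have := hd0 x
      linarith
    · rw [min_eq_right hc] at a3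
      linarith
  calc _ = Ex (V F n) (P α n) (fun T => ∑ x ∈ W, I (sm k T T) x) :=
        Ex_congr fun T hT => card_sm_eq hT hT
    _ = ∑ x ∈ W, Ex (V F n) (P α n) (fun T => I (sm k T T) x) := Ex_sum _ _
    _ ≤ ∑ x ∈ W, (∏ m, Real.exp (p * Real.log (gam F α k (x m))) + d x) :=
        Finset.sum_le_sum hx1
    _ = G (WW F k) (gam F α k) p ^ n + ∑ x ∈ W, d x := by
        rw [Finset.sum_add_distrib, hW, sum_pow_eq]
    _ ≤ _ := by gcongr

omit h in
lemma sm_union {n : ℕ} (T T' : Finset (Fin n → ℤ)) : (sm k (T ∪ T') (T ∪ T')).card ≤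
    (sm k T T).card + (sm k T T').card + (sm k T' T).card + (sm k T' T').card := by
  have hsub : sm k (T ∪ T') (T ∪ T') ⊆ sm k T T ∪ sm k T T' ∪ sm k T' T ∪ sm k T' T' := by
    intro x hx
    unfold sm at hx ⊢
    rw [Finset.mem_image] at hx
    obtain ⟨⟨i, j⟩, hij, rfl⟩ := hx
    rw [Finset.mem_product, Finset.mem_union, Finset.mem_union] at hij
    simp only [Finset.mem_union, Finset.mem_image, Finset.mem_product, Prod.exists]
    rcases hij.1 with h1 | h1 <;> rcases hij.2 with h2 | h2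
    · exact Or.inl (Or.inl (Or.inl ⟨i, j, ⟨h1, h2⟩, rfl⟩))
    · exact Or.inl (Or.inl (Or.inr ⟨i, j, ⟨h1, h2⟩, rfl⟩))
    · exact Or.inl (Or.inr ⟨i, j, ⟨h1, h2⟩, rfl⟩)
    · exact Or.inr ⟨i, j, ⟨h1, h2⟩, rfl⟩
  refine (Finset.card_le_card hsub).trans ?_
  refine (Finset.card_union_le _ _).trans ?_
  gcongr
  refine (Finset.card_union_le _ _).trans ?_
  gcongr
  exact Finset.card_union_le _ _

lemma upper_seq {Γ : ℝ} (haΓ : ∑ z ∈ F, α z ≤ Γ) {δ p : ℝ} (hδ : 0 < δ)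
    (hp0 : 0 ≤ p) (hp1 : p ≤ 1) (hG : G (WW F k) (gam F α k) p ≤ Γ * Real.exp δ) (n : ℕ) :
    ∃ Φ : Finset (Fin n → ℤ) → Finset (Fin n → ℤ) → ℝ, (∀ T T', 0 ≤ Φ T T') ∧
      E2 (V F n) (P α n) Φ ≤ 6 / Real.exp (δ * n) ∧
      ∀ T T', T ⊆ V F n → T' ⊆ V F n → Φ T T' < 1 →
        ((sm k (T ∪ T') (T ∪ T')).card : ℝ) ≤ Γ ^ n * Real.exp (2 * δ * n) := by
  have ha := h.big
  have hΓ0 : 0 < Γ := by linarith
  set C := Γ ^ n * Real.exp (2 * δ * n) with hC
  have hC0 : 0 < C := by positivity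
  refine ⟨fun T T' => (1 / C) * (((sm k T T).card : ℝ) + (sm k T T').card + (sm k T' T).card +
    (sm k T' T').card), fun T T' => by positivity, ?_, ?_⟩
  · rw [E2_const_mul (1 / C) (fun T T' => ((sm k T T).card : ℝ) + (sm k T T').card +
      (sm k T' T).card + (sm k T' T').card),
      E2_add (fun T T' => ((sm k T T).card : ℝ) + (sm k T T').card +
      (sm k T' T).card), E2_add (fun T T' => ((sm k T T).card : ℝ) + (sm k T T').card),
      E2_add (fun T T' => ((sm k T T).card : ℝ)), E2_left, E2_right (fun T' => ((sm k T' T').card : ℝ)),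
      E2_swap (fun T T' => ((sm k T T').card : ℝ))]
    have e1 := E2_card h (k := k) (n := n) hp0 hp1
    have e2 := Ex_card h (k := k) (n := n) hp0 hp1
    have e3 : G (WW F k) (gam F α k) p ^ n ≤ (Γ * Real.exp δ) ^ n := by
      have := G_pos (γ := gam F α k) (WW_ne h (k := k)) p
      gcongr
    have e4 : (∑ z ∈ F, α z) ^ n ≤ (Γ * Real.exp δ) ^ n := by
      have : ∑ z ∈ F, α z ≤ Γ * Real.exp δ :=
        haΓ.trans (le_mul_of_one_le_right hΓ0.le (Real.one_le_exp hδ.le))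
      gcongr
    have e5 : (Γ * Real.exp δ) ^ n * Real.exp (δ * n) = C := by
      rw [hC, mul_pow, ← Real.exp_nat_mul, mul_assoc, ← Real.exp_add]
      congr 2; ring
    rw [div_mul_eq_mul_div, one_mul, div_le_div_iff₀ hC0 (Real.exp_pos _), ← e5]
    have e6 : 0 < Real.exp (δ * n) := Real.exp_pos _
    nlinarith
  · intro T T' _ _ hΦ
    beta_reduce at hΦ
    rw [div_mul_eq_mul_div, one_mul, div_lt_one hC0] at hΦ
    have := sm_union (k := k) T T'
    have h2 : ((sm k (T ∪ T') (T ∪ T')).card : ℝ) ≤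
      (sm k T T).card + (sm k T T').card + (sm k T' T).card + (sm k T' T').card := by
      exact_mod_cast this
    linarith

/-- two sets of words with all sums of dilates of the right size -/
theorem exists_pair (K : Finset ℤ) (hK : (0:ℤ) ∉ K) (Γ : ℤ → ℝ)
    (haΓ : ∀ k ∈ K, ∑ z ∈ F, α z ≤ Γ k)
    (hΓ : ∀ k ∈ K, ∀ p ∈ Set.Icc (0:ℝ) 1, Γ k ≤ G (WW F k) (gam F α k) p)
    (hΓ' : ∀ k ∈ K, ∀ c, Γ k < c → ∃ p ∈ Set.Icc (0:ℝ) 1, G (WW F k) (gam F α k) p ≤ c)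
    {δ : ℝ} (hδ : 0 < δ) :
    ∀ᶠ n in atTop, ∃ T T' : Finset (Fin n → ℤ),
      (∑ z ∈ F, α z) ^ n / 2 ≤ T.card ∧ (T.card : ℝ) ≤ 2 * (∑ z ∈ F, α z) ^ n ∧
      (T'.card : ℝ) ≤ 2 * (∑ z ∈ F, α z) ^ n ∧
      ∀ k ∈ K, Γ k ^ n * Real.exp (-(δ * n)) ≤ (sm k T T').card ∧
        ((sm k (T ∪ T') (T ∪ T')).card : ℝ) ≤ Γ k ^ n * Real.exp (2 * δ * n) := by
  set a := ∑ z ∈ F, α z with ha
  have ha1 : 1 < a := h.big
  have hΓ0 : ∀ k ∈ K, 0 < Γ k := fun k hk => by have := haΓ k hk; linarith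
  have hlow : ∀ k : ℤ, ∃ c : ℕ → ℝ, k ∈ K → (Tendsto c atTop (𝓝 0) ∧ ∀ᶠ n in atTop,
      ∃ Φ : Finset (Fin n → ℤ) → Finset (Fin n → ℤ) → ℝ, (∀ T T', 0 ≤ Φ T T') ∧
      E2 (V F n) (P α n) Φ ≤ c n ∧
      ∀ T T', T ⊆ V F n → T' ⊆ V F n → Φ T T' < 1 →
        a ^ n / 2 ≤ T.card → a ^ n / 2 ≤ T'.card →
        Γ k ^ n * Real.exp (-(δ * n)) ≤ (sm k T T').card) := by
    intro k
    by_cases hk : k ∈ K
    · have hk0 : k ≠ 0 := fun h0 => hK (h0 ▸ hk)
      obtain ⟨c, hc⟩ := lower_seq h hk0 (hΓ0 k hk) (hΓ k hk) hδ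
      exact ⟨c, fun _ => hc⟩
    · exact ⟨fun _ => 0, fun h => absurd h hk⟩
  choose c hc using hlow
  have hev : ∀ᶠ n in atTop, ∀ k ∈ K,
      ∃ Φ : Finset (Fin n → ℤ) → Finset (Fin n → ℤ) → ℝ, (∀ T T', 0 ≤ Φ T T') ∧
      E2 (V F n) (P α n) Φ ≤ c k n ∧
      ∀ T T', T ⊆ V F n → T' ⊆ V F n → Φ T T' < 1 →
        a ^ n / 2 ≤ T.card → a ^ n / 2 ≤ T'.card →
        Γ k ^ n * Real.exp (-(δ * n)) ≤ (sm k T T').card :=
    (Finset.eventually_all K).2 fun k hk => (hc k hk).2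
  have hlim : Tendsto (fun n : ℕ => 4 / a ^ n + 4 / a ^ n +
      ∑ k ∈ K, (c k n + 6 / Real.exp (δ * n))) atTop (𝓝 0) := by
    have h1 : Tendsto (fun n : ℕ => 4 / a ^ n) atTop (𝓝 0) :=
      (tendsto_pow_atTop_atTop_of_one_lt ha1).const_div_atTop 4
    have h2 : Tendsto (fun n : ℕ => ∑ k ∈ K, (c k n + 6 / Real.exp (δ * n))) atTop
        (𝓝 (∑ k ∈ K, ((0:ℝ) + 0))) :=
      tendsto_finsetSum K fun k hk => (hc k hk).1.add (exp_neg_tendsto hδ 6)
    have := (h1.add h1).add h2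
    simpa using this
  filter_upwards [hev, hlim.eventually (gt_mem_nhds one_pos)] with n hn hsmall
  have ha0 : 0 < a := by linarith
  have han : 0 < a ^ n := by positivity
  have hlow' : ∀ k : ℤ, ∃ Φ : Finset (Fin n → ℤ) → Finset (Fin n → ℤ) → ℝ, k ∈ K →
      ((∀ T T', 0 ≤ Φ T T') ∧
      E2 (V F n) (P α n) Φ ≤ c k n ∧
      ∀ T T', T ⊆ V F n → T' ⊆ V F n → Φ T T' < 1 →
        a ^ n / 2 ≤ T.card → a ^ n / 2 ≤ T'.card →
        Γ k ^ n * Real.exp (-(δ * n)) ≤ (sm k T T').card) := by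
    intro k
    by_cases hk : k ∈ K
    · obtain ⟨Φ, hΦ⟩ := hn k hk
      exact ⟨Φ, fun _ => hΦ⟩
    · exact ⟨fun _ _ => 0, fun h => absurd h hk⟩
  choose Φ hΦ using hlow'
  have hup' : ∀ k : ℤ, ∃ Ψ : Finset (Fin n → ℤ) → Finset (Fin n → ℤ) → ℝ, k ∈ K →
      ((∀ T T', 0 ≤ Ψ T T') ∧
      E2 (V F n) (P α n) Ψ ≤ 6 / Real.exp (δ * n) ∧
      ∀ T T', T ⊆ V F n → T' ⊆ V F n → Ψ T T' < 1 →
        ((sm k (T ∪ T') (T ∪ T')).card : ℝ) ≤ Γ k ^ n * Real.exp (2 * δ * n)) := by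
    intro k
    by_cases hk : k ∈ K
    · obtain ⟨p, hp, hGp⟩ := hΓ' k hk (Γ k * Real.exp δ)
        (lt_mul_of_one_lt_right (hΓ0 k hk) (Real.one_lt_exp_iff.2 hδ))
      obtain ⟨Ψ, hΨ⟩ := upper_seq h (haΓ k hk) hδ hp.1 hp.2 hGp n
      exact ⟨Ψ, fun _ => hΨ⟩
    · exact ⟨fun _ _ => 0, fun h => absurd h hk⟩
  choose Ψ hΨ using hup'
  set f1 : Finset (Fin n → ℤ) → ℝ := fun T => (4 / (a ^ n) ^ 2) * ((T.card : ℝ) - a ^ n) ^ 2
    with hf1
  have hf1E : Ex (V F n) (P α n) f1 ≤ 4 / a ^ n := by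
    have h1 := card_var (V := V F n) (P_mem h n) (P_zero h n)
    rw [sum_P, ← ha] at h1
    rw [hf1, Ex_const_mul (4 / (a ^ n) ^ 2) (fun T => ((T.card : ℝ) - a ^ n) ^ 2)]
    calc _ ≤ 4 / (a ^ n) ^ 2 * a ^ n := by gcongr
      _ = 4 / a ^ n := by field_simp
  have hf1card : ∀ T : Finset (Fin n → ℤ), f1 T < 1 →
      a ^ n / 2 ≤ T.card ∧ (T.card : ℝ) ≤ 2 * a ^ n := by
    intro T hT
    rw [hf1] at hT
    simp only at hT
    rw [div_mul_eq_mul_div, div_lt_one (by positivity)] at hT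
    have h2 : |2 * ((T.card : ℝ) - a ^ n)| < |a ^ n| := by
      rw [← sq_lt_sq]
      nlinarith
    rw [abs_of_pos han, abs_lt] at h2
    constructor <;> linarith
  set tot : Finset (Fin n → ℤ) → Finset (Fin n → ℤ) → ℝ := fun T T' =>
    (f1 T + f1 T') + ∑ k ∈ K, (Φ k T T' + Ψ k T T') with htot
  have htotE : E2 (V F n) (P α n) tot < 1 := by
    refine lt_of_le_of_lt ?_ hsmall
    rw [htot, E2_add (fun T T' => f1 T + f1 T') (fun T T' => ∑ k ∈ K, (Φ k T T' + Ψ k T T')),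
      E2_add (fun T T' => f1 T) (fun T T' => f1 T'), E2_left, E2_right, E2_sum]
    refine add_le_add (add_le_add hf1E hf1E) (Finset.sum_le_sum fun k hk => ?_)
    rw [E2_add (Φ k) (Ψ k)]
    exact add_le_add (hΦ k hk).2.1 (hΨ k hk).2.1
  obtain ⟨T, T', hT, hT', hlt⟩ := exists_lt_one (P_mem h n) htotE
  have hf10 : ∀ T, 0 ≤ f1 T := fun T => by rw [hf1]; positivity
  have hsum0 : 0 ≤ ∑ k ∈ K, (Φ k T T' + Ψ k T T') :=
    Finset.sum_nonneg fun k hk => add_nonneg ((hΦ k hk).1 T T') ((hΨ k hk).1 T T')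
  have hlt' : (f1 T + f1 T') + ∑ k ∈ K, (Φ k T T' + Ψ k T T') < 1 := hlt
  have h1 := hf1card T (by have := hf10 T'; linarith)
  have h2 := hf1card T' (by have := hf10 T; linarith)
  refine ⟨T, T', h1.1, h1.2, h2.2, fun k hk => ?_⟩
  have h3 : Φ k T T' + Ψ k T T' ≤ ∑ k ∈ K, (Φ k T T' + Ψ k T T') :=
    Finset.single_le_sum (f := fun k => Φ k T T' + Ψ k T T')
      (fun k hk => add_nonneg ((hΦ k hk).1 T T') ((hΨ k hk).1 T T')) hk
  have h4 := (hΦ k hk).1 T T'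
  have h5 := (hΨ k hk).1 T T'
  have h6 := hf10 T
  have h7 := hf10 T'
  exact ⟨(hΦ k hk).2.2 T T' hT hT' (by linarith) h1.1 h2.1,
    (hΨ k hk).2.2 T T' hT hT' (by linarith)⟩

end

end Q137.FD
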