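import Mathlib
import Pool.Agent.Q137.FD.Main

/-!
# Sizes of fractional dilates, and the embedding of words into the integers
-/

namespace Q137.FD

open Finset Filter Topology

lemma ratio_close {g l x y δ ε : ℝ} (hl : 0 < l) (hg0 : 0 ≤ g) (hg : g ≤ 2 * l)
    (hx : |x - g| ≤ 2 * δ) (hy : |y - l| ≤ δ) (hδ : 0 < δ) (hδ1 : δ ≤ l / 2)
    (hδ2 : 8 * δ < ε * l) : |g / l - x / y| < ε := by
  rw [abs_le] at hx hy
  have hy0 : l / 2 ≤ y := by linarith
  have hy1 : 0 < y := by linarith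
  have hε : 0 < ε := by
    by_contra hc
    push Not at hc
    nlinarith
  have e1 : g / l - x / y = (g * y - x * l) / (l * y) := by
    field_simp
  have e2 : |g * y - x * l| ≤ 4 * l * δ := by
    rw [abs_le]
    constructor <;> nlinarith
  rw [e1, abs_div, abs_of_pos (mul_pos hl hy1), div_lt_iff₀ (mul_pos hl hy1)]
  have e3 : ε * l * (l / 2) ≤ ε * (l * y) := by
    have := mul_le_mul_of_nonneg_left hy0 (mul_pos hε hl).le
    nlinarith
  nlinarith

/-- the size of a fractional dilate, through its support -/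
lemma finsum_eq_G {W : Finset ℤ} {γ : ℤ → ℝ} (h0 : ∀ z, z ∉ W → γ z = 0)
    (hpos : ∀ z ∈ W, 0 < γ z) {p : ℝ} (hp : p ≠ 0) : ∑ᶠ n : ℤ, γ n ^ p = G W γ p := by
  rw [finsum_eq_sum_of_support_subset (s := W)]
  · unfold G
    refine Finset.sum_congr rfl fun z hz => ?_
    rw [Real.rpow_def_of_pos (hpos z hz), mul_comm]
  · intro z hz
    rw [Function.mem_support] at hz
    by_contra hc
    apply hz
    rw [h0 z (by simpa using hc), Real.zero_rpow hp]

lemma iInf_le_G {W : Finset ℤ} (hW : W.Nonempty) {γ : ℤ → ℝ} (h0 : ∀ z, z ∉ W → γ z = 0)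
    (hpos : ∀ z ∈ W, 0 < γ z) {p : ℝ} (hp : p ∈ Set.Icc (0:ℝ) 1) :
    (⨅ p : Set.Ioo (0:ℝ) 1, ∑ᶠ n : ℤ, γ n ^ (p : ℝ)) ≤ G W γ p := by
  have hclosed : IsClosed {p : ℝ | (⨅ p : Set.Ioo (0:ℝ) 1, ∑ᶠ n : ℤ, γ n ^ (p : ℝ)) ≤ G W γ p} :=
    isClosed_le continuous_const (G_cont W γ)
  have hsub : Set.Ioo (0:ℝ) 1 ⊆
      {p : ℝ | (⨅ p : Set.Ioo (0:ℝ) 1, ∑ᶠ n : ℤ, γ n ^ (p : ℝ)) ≤ G W γ p} := by
    intro q hq
    have hb : BddBelow (Set.range fun p : Set.Ioo (0:ℝ) 1 => ∑ᶠ n : ℤ, γ n ^ (p : ℝ)) := by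
      refine ⟨0, ?_⟩
      rintro _ ⟨r, rfl⟩
      simp only
      rw [finsum_eq_G h0 hpos r.2.1.ne']
      exact (G_pos hW _).le
    have := ciInf_le hb ⟨q, hq⟩
    rwa [finsum_eq_G h0 hpos hq.1.ne'] at this
  have h2 := closure_minimal hsub hclosed
  rw [closure_Ioo zero_ne_one] at h2
  exact h2 hp

lemma le_iInf {W : Finset ℤ} {γ : ℤ → ℝ} (h0 : ∀ z, z ∉ W → γ z = 0)
    (hpos : ∀ z ∈ W, 0 < γ z) {c : ℝ} (hc : ∀ p ∈ Set.Ioo (0:ℝ) 1, c ≤ G W γ p) :
    c ≤ ⨅ p : Set.Ioo (0:ℝ) 1, ∑ᶠ n : ℤ, γ n ^ (p : ℝ) := by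
  have : Nonempty (Set.Ioo (0:ℝ) 1) := ⟨⟨1/2, by norm_num, by norm_num⟩⟩
  refine le_ciInf fun p => ?_
  rw [finsum_eq_G h0 hpos p.2.1.ne']
  exact hc p p.2

lemma exists_G_le {W : Finset ℤ} {γ : ℤ → ℝ} (h0 : ∀ z, z ∉ W → γ z = 0)
    (hpos : ∀ z ∈ W, 0 < γ z) {c : ℝ}
    (hc : (⨅ p : Set.Ioo (0:ℝ) 1, ∑ᶠ n : ℤ, γ n ^ (p : ℝ)) < c) :
    ∃ p ∈ Set.Icc (0:ℝ) 1, G W γ p ≤ c := by
  have : Nonempty (Set.Ioo (0:ℝ) 1) := ⟨⟨1/2, by norm_num, by norm_num⟩⟩
  obtain ⟨p, hp⟩ := exists_lt_of_ciInf_lt hc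
  rw [finsum_eq_G h0 hpos p.2.1.ne'] at hp
  exact ⟨p, ⟨p.2.1.le, p.2.2.le⟩, hp.le⟩

/-- an additive map to the integers that is injective on a given finite set of words -/
lemma exists_embed {n : ℕ} (U : Finset (Fin n → ℤ)) : ∃ φ : (Fin n → ℤ) →+ ℤ,
    Set.InjOn φ (U : Set (Fin n → ℤ)) := by
  classical
  set X : Finset (Fin n → ℤ) := ((U ×ˢ U).image fun q => q.1 - q.2).erase 0 with hX
  let pol : (Fin n → ℤ) → Polynomial ℤ := fun x => ∑ m : Fin n,
    Polynomial.C (x m) * Polynomial.X ^ (m : ℕ)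
  have hpol : ∀ x : Fin n → ℤ, x ≠ 0 → pol x ≠ 0 := by
    intro x hx hc
    apply hx
    funext m
    have h1 : (pol x).coeff (m : ℕ) = x m := by
      simp only [pol, Polynomial.finsetSum_coeff, Polynomial.coeff_C_mul, Polynomial.coeff_X_pow]
      rw [Finset.sum_eq_single m]
      · simp
      · intro b _ hb
        rw [if_neg (fun h => hb (Fin.ext h.symm)), mul_zero]
      · simp
    rw [hc, Polynomial.coeff_zero] at h1
    exact h1.symm
  have hprod : ∏ x ∈ X, pol x ≠ 0 := by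
    rw [Finset.prod_ne_zero_iff]
    intro x hx
    exact hpol x (Finset.ne_of_mem_erase hx)
  obtain ⟨t, ht⟩ : ∃ t : ℤ, (∏ x ∈ X, pol x).eval t ≠ 0 := by
    by_contra hc
    push Not at hc
    apply hprod
    refine Polynomial.funext fun r => ?_
    rw [hc r, Polynomial.eval_zero]
  let φ : (Fin n → ℤ) →+ ℤ :=
    { toFun := fun x => ∑ m : Fin n, x m * t ^ (m : ℕ)
      map_zero' := by simp
      map_add' := fun x y => by
        simp only [Pi.add_apply, add_mul, Finset.sum_add_distrib] }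
  refine ⟨φ, fun x hx y hy hxy => ?_⟩
  by_contra hne
  have hmem : x - y ∈ X := by
    rw [hX, Finset.mem_erase]
    refine ⟨sub_ne_zero.2 hne, Finset.mem_image.2 ⟨(x, y), Finset.mem_product.2 ⟨hx, hy⟩, rfl⟩⟩
  have h1 : (pol (x - y)).eval t ≠ 0 := by
    rw [Polynomial.eval_prod, Finset.prod_ne_zero_iff] at ht
    exact ht _ hmem
  have h2 : (pol (x - y)).eval t = φ (x - y) := by
    simp only [pol, Polynomial.eval_finsetSum, Polynomial.eval_mul, Polynomial.eval_C,
      Polynomial.eval_pow, Polynomial.eval_X]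
    rfl
  rw [h2, map_sub, hxy, sub_self] at h1
  exact h1 rfl

/-- transfer to the integers -/
lemma transfer {n : ℕ} (S : Finset (Fin n → ℤ)) (K : Finset ℤ) : ∃ S' : Finset ℤ,
    S'.card = S.card ∧ ∀ k ∈ K,
      ((S' ×ˢ S').image fun q => q.1 + k * q.2).card = (sm k S S).card := by
  classical
  obtain ⟨φ, hφ⟩ := exists_embed (S ∪ K.biUnion fun k => sm k S S)
  refine ⟨S.image φ, ?_, fun k hk => ?_⟩
  · exact Finset.card_image_of_injOn (hφ.mono (by
      rw [Finset.coe_union]; exact Set.subset_union_left))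
  · have e1 : ((S.image φ ×ˢ S.image φ).image fun q => q.1 + k * q.2) =
        (sm k S S).image φ := by
      ext z
      unfold sm
      simp only [Finset.mem_image, Finset.mem_product, Prod.exists]
      constructor
      · rintro ⟨a, b, ⟨⟨x, hx, rfl⟩, ⟨y, hy, rfl⟩⟩, rfl⟩
        refine ⟨_, ⟨x, y, ⟨hx, hy⟩, rfl⟩, ?_⟩
        have : (fun m => x m + k * y m) = x + k • y := by
          funext m; simp
        rw [this, map_add, map_zsmul, smul_eq_mul]
      · rintro ⟨_, ⟨x, y, ⟨hx, hy⟩, rfl⟩, rfl⟩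
        refine ⟨φ x, φ y, ⟨⟨x, hx, rfl⟩, ⟨y, hy, rfl⟩⟩, ?_⟩
        have : (fun m => x m + k * y m) = x + k • y := by
          funext m; simp
        rw [this, map_add, map_zsmul, smul_eq_mul]
    rw [e1]
    refine Finset.card_image_of_injOn (hφ.mono ?_)
    intro x hx
    rw [Finset.mem_coe] at hx ⊢
    exact Finset.mem_union_right _ (Finset.mem_biUnion.2 ⟨k, hk, hx⟩)

section

variable {F : Finset ℤ} {α : ℤ → ℝ} (h : Good F α) {k : ℤ}

include h

lemma size_set : (⨅ p : Set.Ioo (0:ℝ) 1, ∑ᶠ n : ℤ, α n ^ (p : ℝ)) = ∑ z ∈ F, α z := by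
  apply le_antisymm
  · refine (iInf_le_G h.ne h.zero h.pos (p := 1) ⟨zero_le_one, le_rfl⟩).trans (le_of_eq ?_)
    unfold G
    refine Finset.sum_congr rfl fun z hz => ?_
    rw [one_mul, Real.exp_log (h.pos z hz)]
  · refine le_iInf h.zero h.pos fun p hp => ?_
    unfold G
    refine Finset.sum_le_sum fun z hz => ?_
    have h1 := h.pos z hz
    have h2 : Real.log (α z) ≤ 0 := Real.log_nonpos h1.le (h.le z)
    calc α z = Real.exp (Real.log (α z)) := (Real.exp_log h1).symm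
      _ ≤ _ := Real.exp_le_exp.2 (by nlinarith [hp.2])

lemma size_gam_ge : ∑ z ∈ F, α z ≤
    ⨅ p : Set.Ioo (0:ℝ) 1, ∑ᶠ n : ℤ, gam F α k n ^ (p : ℝ) := by
  refine le_iInf (fun z hz => gam_zero h hz) (fun z hz => gam_pos h hz) fun p hp => ?_
  set a := ∑ z ∈ F, α z with ha
  have ha1 : 1 < a := h.big
  have ha0 : 0 < a := by linarith
  have h1 : ∀ z ∈ WW F k, gam F α k z * Real.exp ((p - 1) * Real.log a) ≤
      Real.exp (p * Real.log (gam F α k z)) := by
    intro z hz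
    have hg := gam_pos h hz
    have hle : Real.log (gam F α k z) ≤ Real.log a := Real.log_le_log hg (gam_le h z)
    calc _ = Real.exp (Real.log (gam F α k z)) * Real.exp ((p - 1) * Real.log a) := by
          rw [Real.exp_log hg]
      _ = Real.exp (Real.log (gam F α k z) + (p - 1) * Real.log a) := by rw [Real.exp_add]
      _ ≤ _ := Real.exp_le_exp.2 (by nlinarith [hp.2])
  have h2 := Finset.sum_le_sum h1
  rw [← Finset.sum_mul, sum_gam h, ← ha] at h2
  refine le_trans ?_ h2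
  have hl : 0 < Real.log a := Real.log_pos ha1
  have h3 : Real.exp (-Real.log a) ≤ Real.exp ((p - 1) * Real.log a) :=
    Real.exp_le_exp.2 (by nlinarith [hp.1])
  rw [Real.exp_neg, Real.exp_log ha0] at h3
  calc a = a ^ 2 * a⁻¹ := by field_simp
    _ ≤ _ := by gcongr

/-- the theorem for `Good` data -/
theorem approx (K : Finset ℤ) (hK : (0:ℤ) ∉ K) {ε : ℝ} (hε : 0 < ε) (M : ℕ) :
    ∃ S : Finset ℤ, M ≤ S.card ∧ 2 ≤ S.card ∧ ∀ k ∈ K,
      |Real.log (⨅ p : Set.Ioo (0:ℝ) 1, ∑ᶠ n : ℤ, gam F α k n ^ (p : ℝ)) /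
          Real.log (∑ z ∈ F, α z) -
        Real.log (((S ×ˢ S).image fun q => q.1 + k * q.2).card : ℝ) / Real.log (S.card : ℝ)| <
        ε := by
  set a := ∑ z ∈ F, α z with ha
  have ha1 : 1 < a := h.big
  have ha0 : 0 < a := by linarith
  have hl : 0 < Real.log a := Real.log_pos ha1
  set Γ : ℤ → ℝ := fun k => ⨅ p : Set.Ioo (0:ℝ) 1, ∑ᶠ n : ℤ, gam F α k n ^ (p : ℝ) with hΓ
  set δ : ℝ := min (Real.log a / 2) (ε * Real.log a / 16) with hδ
  have hδ0 : 0 < δ := lt_min (by positivity) (by positivity)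
  have hδ1 : δ ≤ Real.log a / 2 := min_le_left _ _
  have hδ2 : 8 * δ < ε * Real.log a := by
    have : δ ≤ ε * Real.log a / 16 := min_le_right _ _
    have : 0 < ε * Real.log a := by positivity
    linarith
  have haΓ : ∀ k, a ≤ Γ k := fun k => size_gam_ge h
  have hev := exists_pair h K hK Γ (fun k _ => haΓ k)
    (fun k _ p hp => iInf_le_G (WW_ne h) (fun z hz => gam_zero h hz)
      (fun z hz => gam_pos h hz) hp)
    (fun k _ c hc => exists_G_le (fun z hz => gam_zero h hz) (fun z hz => gam_pos h hz) hc) hδ0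
  have hlarge1 : ∀ᶠ n : ℕ in atTop, Real.log 4 ≤ δ * n :=
    (Tendsto.const_mul_atTop hδ0 tendsto_natCast_atTop_atTop).eventually_ge_atTop _
  have hlarge2 : ∀ᶠ n : ℕ in atTop, 2 * ((M : ℝ) + 2) ≤ a ^ n :=
    (tendsto_pow_atTop_atTop_of_one_lt ha1).eventually_ge_atTop _
  obtain ⟨n, ⟨T, T', hT, hT2, hT'2, hTT⟩, hn1, hn2, hn3⟩ :=
    (hev.and (hlarge1.and (hlarge2.and (eventually_ge_atTop 1)))).exists
  obtain ⟨S, hS, hSk⟩ := transfer (T ∪ T') K
  have hnpos : (0:ℝ) < n := by exact_mod_cast hn3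
  have han : 0 < a ^ n := by positivity
  have hc1 : a ^ n / 2 ≤ S.card := by
    rw [hS]
    refine hT.trans ?_
    exact_mod_cast Finset.card_le_card Finset.subset_union_left
  have hc2 : (S.card : ℝ) ≤ 4 * a ^ n := by
    rw [hS]
    have : ((T ∪ T').card : ℝ) ≤ T.card + T'.card := by exact_mod_cast Finset.card_union_le T T'
    linarith
  have hcM : (M : ℝ) + 2 ≤ S.card := by linarith
  have hcM' : M + 2 ≤ S.card := by exact_mod_cast hcM
  refine ⟨S, by omega, by omega, fun k hk => ?_⟩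
  have hS0 : (0:ℝ) < S.card := by linarith [(Nat.cast_nonneg M : (0:ℝ) ≤ M)]
  have hG0 : 0 < Γ k := by linarith [haΓ k]
  obtain ⟨hlo, hup⟩ := hTT k hk
  have hlo' : Γ k ^ n * Real.exp (-(δ * n)) ≤ (sm k (T ∪ T') (T ∪ T')).card := by
    refine hlo.trans ?_
    have : sm k T T' ⊆ sm k (T ∪ T') (T ∪ T') := by
      unfold sm
      exact Finset.image_subset_image (Finset.product_subset_product Finset.subset_union_left
        Finset.subset_union_right)
    exact_mod_cast Finset.card_le_card this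
  rw [← hSk k hk] at hlo' hup
  set B : ℝ := (((S ×ˢ S).image fun q => q.1 + k * q.2).card : ℝ) with hB
  have hB0 : 0 < B := lt_of_lt_of_le (by positivity) hlo'
  have hgl : Real.log (Γ k) ≤ 2 * Real.log a := by
    have h1 : Γ k ≤ a ^ 2 := by
      have := iInf_le_G (WW_ne h (k := k)) (fun z hz => gam_zero h hz)
        (fun z hz => gam_pos h hz) (p := 1) ⟨zero_le_one, le_rfl⟩
      rwa [G_one h k] at this
    have h2 := Real.log_le_log hG0 h1
    rwa [Real.log_pow, Nat.cast_ofNat] at h2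
  have hg0 : 0 ≤ Real.log (Γ k) := Real.log_nonneg (by linarith [haΓ k])
  have hx1 : n * Real.log (Γ k) - δ * n ≤ Real.log B := by
    have := Real.log_le_log (by positivity) hlo'
    rw [Real.log_mul (by positivity) (by positivity), Real.log_pow, Real.log_exp] at this
    linarith
  have hx2 : Real.log B ≤ n * Real.log (Γ k) + 2 * δ * n := by
    have := Real.log_le_log hB0 hup
    rwa [Real.log_mul (by positivity) (by positivity), Real.log_pow, Real.log_exp] at this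
  have hlog24 : Real.log 2 ≤ Real.log 4 := Real.log_le_log (by norm_num) (by norm_num)
  have hy1 : n * Real.log a - δ * n ≤ Real.log S.card := by
    have := Real.log_le_log (by positivity) hc1
    rw [Real.log_div (by positivity) (by norm_num), Real.log_pow] at this
    linarith
  have hy2 : Real.log S.card ≤ n * Real.log a + δ * n := by
    have := Real.log_le_log hS0 hc2
    rw [Real.log_mul (by norm_num) (by positivity), Real.log_pow] at this
    linarith
  have key := ratio_close (g := Real.log (Γ k)) (l := Real.log a) (x := Real.log B / n)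
    (y := Real.log S.card / n) (δ := δ) (ε := ε) hl hg0 hgl
    (by
      rw [abs_le]
      constructor
      · rw [neg_le_sub_iff_le_add, ← sub_le_iff_le_add, le_div_iff₀ hnpos]
        nlinarith
      · rw [sub_le_iff_le_add, div_le_iff₀ hnpos]
        nlinarith)
    (by
      rw [abs_le]
      constructor
      · rw [neg_le_sub_iff_le_add, ← sub_le_iff_le_add, le_div_iff₀ hnpos]
        nlinarith
      · rw [sub_le_iff_le_add, div_le_iff₀ hnpos]
        nlinarith) hδ0 hδ1 hδ2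
  rwa [div_div_div_cancel_right₀ hnpos.ne'] at key

end

end Q137.FD
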